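import Pool.Agent.helper43.MF.Fin45
import Pool.Agent.helper47.MF.Inst2

set_option autoImplicit false
set_option linter.unusedSectionVars false

/-!
# MP_141f81: `Stmt45` (Sections 4 and 5)
-/

namespace Helper43.Prism

open Finset
open Pool.Agent.MF
open Pool.Agent.helper47.MF (RowSys NrF basF fF gF rowSys_frame card_frame)

theorem NN_eq (N : Type) [AddCommGroup N] [Fintype N] [DecidableEq N] (s : ℕ) :
    NN N (Fin s → ZMod 2) = NrF N s := by
  unfold NN NrF
  congr 1
  ext v
  simp

/-- **Sections 4 and 5**: consistency at an absolute scale. -/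
theorem stmt45 : Stmt45 := by
  intro b0
  refine ⟨b0 + 4, ?_⟩
  intro N _ _ _ s hs M hr c hc
  have hs3 : 3 ≤ s := by omega
  let _ : Module (ZMod 2) (N × (Fin s → ZMod 2)) :=
    AddCommGroup.zmodModule (n := 2) fun a => by rw [two_nsmul]; exact M.two a
  obtain ⟨d, C0, hd, h⟩ := fin45 M (fF N hs3) rfl (gF N hs3) (basF N hs3) (b := b0) (by omega) hc
  refine ⟨d, C0, hd, ?_⟩
  intro n hn R hE hcard
  refine h n hn R hE ?_ (card_frame hs3 hr hcard)
  rw [NN_eq]
  exact rowSys_frame hs3 hn hE

end Helper43.Prism
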