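import Pool.Agent.helper43.MF.Count

set_option autoImplicit false
set_option linter.unusedSectionVars false

/-!
# MP_141f81: the prism count, part 5 (from sums of near lines to trees)
-/

namespace Helper43.Prism

open Finset

/-- binary trees with leaves in `α` -/
inductive BT (α : Type) : Type
  | leaf : α → BT α
  | node : BT α → BT α → BT α

/-- number of nodes -/
def BT.nodes {α : Type} : BT α → ℕ
  | .leaf _ => 0
  | .node l r => l.nodes + r.nodes + 1

/-- the leaves -/
def BT.leaves {α : Type} : BT α → List α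
  | .leaf a => [a]
  | .node l r => l.leaves ++ r.leaves

theorem BT.leaves_length {α : Type} : ∀ t : BT α, t.leaves.length = t.nodes + 1 := by
  intro t
  induction t with
  | leaf a => rfl
  | node l r ihl ihr =>
    rw [BT.leaves, List.length_append, ihl, ihr, BT.nodes]
    omega

variable {V : Type} [AddCommGroup V] [Module (ZMod 2) V] {n : ℕ}

/-- the letter at the root -/
def lv (ad : V → V → Fin n → Fin n → Fin n) : BT (V × Fin n) → V × Fin n
  | .leaf a => a
  | .node l r => ((lv ad l).1 + (lv ad r).1, ad (lv ad l).1 (lv ad r).1 (lv ad l).2 (lv ad r).2)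

/-- valid trees -/
def BV (ad : V → V → Fin n → Fin n → Fin n) (L : V × Fin n → V × Fin n → Prop) : BT (V × Fin n) → Prop
  | .leaf _ => True
  | .node l r => (BV ad L l ∧ BV ad L r) ∧ L (lv ad l) (lv ad r)

/-- a letter as a formal sum -/
noncomputable abbrev sy (a : V × Fin n) : (V × Fin n) →₀ ZMod 2 := Finsupp.single a 1

/-- sum of the leaves -/
noncomputable def fs : BT (V × Fin n) → ((V × Fin n) →₀ ZMod 2)
  | .leaf a => sy a
  | .node l r => fs l + fs r

theorem fs_eq (t : BT (V × Fin n)) : fs t = (t.leaves.map sy).sum := by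
  induction t with
  | leaf a => simp [fs, BT.leaves]
  | node l r ihl ihr => rw [fs, BT.leaves, List.map_append, List.sum_append, ihl, ihr]

theorem two_eq0 {X : Type} (g : X →₀ ZMod 2) : g + g = 0 := by
  ext x
  rw [Finsupp.add_apply, Finsupp.zero_apply]
  exact CharTwo.add_self_eq_zero _

/-- expansion of a leaf -/
theorem expand {ad : V → V → Fin n → Fin n → Fin n} {L : V × Fin n → V × Fin n → Prop}
    {ℓ a b : V × Fin n} (hL : L a b) (hℓ : (a.1 + b.1, ad a.1 b.1 a.2 b.2) = ℓ) :
    ∀ t : BT (V × Fin n), BV ad L t → ℓ ∈ t.leaves →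
      ∃ t', BV ad L t' ∧ lv ad t' = lv ad t ∧ fs t' = fs t + (sy ℓ + sy a + sy b) ∧ t'.nodes = t.nodes + 1 ∧
        ∀ c ∈ t'.leaves, c ∈ t.leaves ∨ c = a ∨ c = b := by
  intro t
  induction t with
  | leaf c =>
    intro _ hc
    rw [BT.leaves, List.mem_singleton] at hc
    subst hc
    refine ⟨.node (.leaf a) (.leaf b), ⟨⟨trivial, trivial⟩, hL⟩, hℓ, ?_, rfl, ?_⟩
    · change sy a + sy b = sy ℓ + (sy ℓ + sy a + sy b)
      rw [add_assoc (sy ℓ), ← add_assoc (sy ℓ) (sy ℓ), two_eq0, zero_add]
    · intro c hc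
      simp only [BT.leaves, List.cons_append, List.nil_append, List.mem_cons, List.not_mem_nil,
        or_false] at hc
      exact Or.inr hc
  | node l r ihl ihr =>
    intro hv hc
    obtain ⟨⟨hl, hr⟩, hlr⟩ := hv
    rw [BT.leaves, List.mem_append] at hc
    rcases hc with hc | hc
    · obtain ⟨t', h1, h2, h3, h4, h5⟩ := ihl hl hc
      refine ⟨.node t' r, ⟨⟨h1, hr⟩, by rw [h2]; exact hlr⟩, ?_, ?_, ?_, ?_⟩
      · rw [lv, lv, h2]
      · rw [fs, fs, h3, add_right_comm]
      · rw [BT.nodes, BT.nodes, h4]; omega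
      · intro c hc
        rw [BT.leaves, List.mem_append] at hc
        rw [BT.leaves, List.mem_append]
        rcases hc with hc | hc
        · rcases h5 c hc with h | h
          · exact Or.inl (Or.inl h)
          · exact Or.inr h
        · exact Or.inl (Or.inr hc)
    · obtain ⟨t', h1, h2, h3, h4, h5⟩ := ihr hr hc
      refine ⟨.node l t', ⟨⟨hl, h1⟩, by rw [h2]; exact hlr⟩, ?_, ?_, ?_, ?_⟩
      · rw [lv, lv, h2]
      · rw [fs, fs, h3, ← add_assoc (fs l)]
      · rw [BT.nodes, BT.nodes, h4]; omega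
      · intro c hc
        rw [BT.leaves, List.mem_append] at hc
        rw [BT.leaves, List.mem_append]
        rcases hc with hc | hc
        · exact Or.inl (Or.inl hc)
        · rcases h5 c hc with h | h
          · exact Or.inl (Or.inr h)
          · exact Or.inr h

/-- the role of a formal sum -/
noncomputable def role : ((V × Fin n) →₀ ZMod 2) →ₗ[ZMod 2] V :=
  Finsupp.linearCombination (ZMod 2) fun a : V × Fin n => a.1

theorem role_sy (a : V × Fin n) : role (sy a) = a.1 := by
  rw [role, Finsupp.linearCombination_single, one_smul]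

/-- near lines as formal sums: the relation `L` between the first two letters of a line is closed under
permutations of the line -/
structure Lines (ad : V → V → Fin n → Fin n → Fin n) (L : V × Fin n → V × Fin n → Prop) : Prop where
  perm1 : ∀ a b, L a b → ∃ c, c = (a.1 + b.1, ad a.1 b.1 a.2 b.2) ∧
    (L b c ∧ (b.1 + c.1, ad b.1 c.1 b.2 c.2) = a) ∧ (L a c ∧ (a.1 + c.1, ad a.1 c.1 a.2 c.2) = b)

/-- the set of near lines -/
def TL (ad : V → V → Fin n → Fin n → Fin n) (L : V × Fin n → V × Fin n → Prop) :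
    Set ((V × Fin n) →₀ ZMod 2) :=
  {t | ∃ a b, L a b ∧ t = sy a + sy b + sy (a.1 + b.1, ad a.1 b.1 a.2 b.2)}

theorem role_TL {ad : V → V → Fin n → Fin n → Fin n} {L : V × Fin n → V × Fin n → Prop}
    {t : (V × Fin n) →₀ ZMod 2} (ht : t ∈ TL ad L) : role t = 0 := by
  obtain ⟨a, b, -, rfl⟩ := ht
  rw [map_add, map_add, role_sy, role_sy, role_sy]
  exact ZModModule.add_self _

theorem sum_apply_zero {ts : List ((V × Fin n) →₀ ZMod 2)} {a : V × Fin n} (h : ∀ t ∈ ts, t a = 0) :
    ts.sum a = 0 := by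
  induction ts with
  | nil => rfl
  | cons t ts ih =>
    rw [List.sum_cons, Finsupp.add_apply, h t (List.mem_cons_self), ih fun s hs => h s (List.mem_cons_of_mem _ hs),
      add_zero]

theorem sy_ne {a b : V × Fin n} (h : b ≠ a) : sy a b = 0 := by
  classical
  rw [Finsupp.single_apply, if_neg (fun h' => h h'.symm)]

/-- greedy expansion -/
theorem grow {ad : V → V → Fin n → Fin n → Fin n} {L : V × Fin n → V × Fin n → Prop} (hL : Lines ad L)
    {p : V × Fin n} (hp : p.1 ≠ 0) : ∀ (k : ℕ) (ts : List ((V × Fin n) →₀ ZMod 2)), ts.length = k →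
      (∀ t ∈ ts, t ∈ TL ad L) → ∀ t0 : BT (V × Fin n), BV ad L t0 → fs t0 + ts.sum = sy p →
        ∃ t', BV ad L t' ∧ lv ad t' = lv ad t0 ∧ fs t' = sy p ∧ t'.nodes ≤ t0.nodes + k := by
  intro k
  induction k with
  | zero =>
    intro ts hts _ t0 hv h0
    rw [List.length_eq_zero_iff] at hts
    subst hts
    rw [List.sum_nil, add_zero] at h0
    exact ⟨t0, hv, rfl, h0, le_rfl⟩
  | succ k ih =>
    intro ts hts hT t0 hv h0
    by_cases hex : ∃ t ∈ ts, ∃ ℓ ∈ t0.leaves, t ℓ ≠ 0
    · obtain ⟨t, ht, ℓ, hℓ, htℓ⟩ := hex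
      have hTt := hT t ht
      -- the other two letters
      obtain ⟨a, b, hab, hsum⟩ : ∃ a b, (L a b ∧ (a.1 + b.1, ad a.1 b.1 a.2 b.2) = ℓ) ∧
          t = sy ℓ + sy a + sy b := by
        obtain ⟨a, b, hLab, rfl⟩ := hTt
        obtain ⟨c, hc, ⟨h1, h2⟩, h3, h4⟩ := hL.perm1 a b hLab
        rw [← hc] at htℓ ⊢
        have h5 : ℓ = a ∨ ℓ = b ∨ ℓ = c := by
          by_contra hcon
          push Not at hcon
          apply htℓ
          rw [Finsupp.add_apply, Finsupp.add_apply, Finsupp.single_eq_of_ne (by tauto),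
            Finsupp.single_eq_of_ne (by tauto), Finsupp.single_eq_of_ne (by tauto)]
          rfl
        rcases h5 with rfl | rfl | rfl
        · exact ⟨b, c, ⟨h1, h2⟩, rfl⟩
        · exact ⟨a, c, ⟨h3, h4⟩, by rw [add_comm (sy a)]⟩
        · exact ⟨a, b, ⟨hLab, hc.symm⟩, by rw [add_comm, add_assoc]⟩
      obtain ⟨t', g1, g2, g3, g4, -⟩ := expand hab.1 hab.2 t0 hv hℓ
      classical
      have hlen : (ts.erase t).length = k := by
        rw [List.length_erase_of_mem ht, hts]
        rfl
      have hsum2 : t + (ts.erase t).sum = ts.sum := List.sum_erase ht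
      obtain ⟨t'', f1, f2, f3, f4⟩ := ih (ts.erase t) hlen (fun s hs => hT s (List.mem_of_mem_erase hs)) t' g1 (by
        rw [g3, ← hsum, add_assoc, hsum2, h0])
      exact ⟨t'', f1, f2.trans g2, f3, by omega⟩
    · push Not at hex
      refine ⟨t0, hv, rfl, ?_, by omega⟩
      -- disjoint supports
      have hA : ∀ ℓ, ℓ ∉ t0.leaves → fs t0 ℓ = 0 := by
        intro ℓ hℓ
        rw [fs_eq]
        refine sum_apply_zero fun t ht => ?_
        rw [List.mem_map] at ht
        obtain ⟨a, ha, rfl⟩ := ht
        exact Finsupp.single_eq_of_ne (fun h => hℓ (h ▸ ha))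
      have hB : ∀ ℓ, ℓ ∈ t0.leaves → ts.sum ℓ = 0 := fun ℓ hℓ => sum_apply_zero fun t ht => hex t ht ℓ hℓ
      by_cases hpl : p ∈ t0.leaves
      · have hz : ts.sum = 0 := by
          ext ℓ
          by_cases hℓ : ℓ ∈ t0.leaves
          · rw [hB ℓ hℓ]; rfl
          · have h1 := congrArg (fun g => g ℓ) h0
            simp only [Finsupp.add_apply] at h1
            rw [hA ℓ hℓ, zero_add, sy_ne (fun h => hℓ (by rw [h]; exact hpl))] at h1
            rw [h1]; rfl
        rw [hz, add_zero] at h0
        exact h0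
      · exfalso
        have hz : fs t0 = 0 := by
          ext ℓ
          by_cases hℓ : ℓ ∈ t0.leaves
          · have h1 := congrArg (fun g => g ℓ) h0
            simp only [Finsupp.add_apply] at h1
            rw [hB ℓ hℓ, add_zero, sy_ne (fun h => hpl (by rw [← h]; exact hℓ))] at h1
            rw [h1]; rfl
          · rw [hA ℓ hℓ]; rfl
        rw [hz, zero_add] at h0
        have h1 : role ts.sum = 0 := by
          have : ∀ s : List ((V × Fin n) →₀ ZMod 2), (∀ t ∈ s, t ∈ TL ad L) → role s.sum = 0 := by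
            intro s
            induction s with
            | nil => intro _; rw [List.sum_nil, map_zero]
            | cons t s ihs =>
              intro hs
              rw [List.sum_cons, map_add, role_TL (hs t List.mem_cons_self),
                ihs fun r hr => hs r (List.mem_cons_of_mem _ hr), add_zero]
          exact this ts hT
        rw [h0, role_sy] at h1
        exact hp h1

/-- a sum of near lines with two end letters gives a tree -/
theorem tree_of_sum {ad : V → V → Fin n → Fin n → Fin n} {L : V × Fin n → V × Fin n → Prop} (hL : Lines ad L)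
    {p q : V × Fin n} (hp : p.1 ≠ 0) {ts : List ((V × Fin n) →₀ ZMod 2)}
    (hT : ∀ t ∈ ts, t ∈ TL ad L) (h : ts.sum = sy p + sy q) :
    ∃ t', BV ad L t' ∧ lv ad t' = q ∧ fs t' = sy p ∧ t'.nodes ≤ ts.length := by
  obtain ⟨t', h1, h2, h3, h4⟩ := grow hL hp ts.length ts rfl hT (.leaf q) trivial (by
    rw [h, add_comm (sy p), fs, ← add_assoc, two_eq0, zero_add])
  exact ⟨t', h1, h2, h3, by simpa [BT.nodes] using h4⟩

end Helper43.Prism
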