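import Pool.Agent.helper43.MF.Low

set_option autoImplicit false

/-!
# MP_141f81: the prism count, part 4 (the number of end letters of one type)
-/

namespace Helper43.Prism

open Finset

variable {V : Type} [AddCommGroup V] {n m : ℕ} (D : Dat V n m)

/-- lifts over a tree: centres and a configuration -/
abbrev Lf (n : ℕ) {m : ℕ} (τ : Tr m) : Type := (Option (Fin m) → Fin n) × Cfg n τ

/-- far lifts compatible with the far row `σ` -/
def VFar (τ : Tr m) (σ : Fin m → Fin n) (a : Lf n τ) : Prop := CF D σ a.1 ∧ Vd D (KF D σ) a.1 τ a.2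

/-- lifts over the near pattern `x` -/
def VNear (w : Fin m → Fin n) (u : Option (Fin m) → V) (τ : Tr m) (x : Option (Fin m) → Fin n)
    (a : Lf n τ) : Prop := CN D w u x a.1 ∧ Vd D (KN D w u x) a.1 τ a.2

variable {D}

theorem Ed_mono {K K' : Tr m → (V → Fin n) → Prop} (h : ∀ τ ρ, K τ ρ → K' τ ρ) {τ : Tr m} {i : Fin 3}
    {a e : Fin n} (he : Ed D K τ i a e) : Ed D K' τ i a e := by
  obtain ⟨ρ, hρ, k, h1, h2⟩ := he
  exact ⟨ρ, hρ, h _ _ k, h1, h2⟩

theorem PV_mono {K K' : Tr m → (V → Fin n) → Prop} (h : ∀ τ ρ, K τ ρ → K' τ ρ) {τ : Tr m} {i j : Fin 3}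
    {a a' : Fin n} {P : Pth n} (he : PV D K τ i a j a' P) : PV D K' τ i a j a' P :=
  ⟨Ed_mono h he.1, Ed_mono h he.2.1, Ed_mono h he.2.2.1, Ed_mono h he.2.2.2⟩

theorem Vd_mono {K K' : Tr m → (V → Fin n) → Prop} (h : ∀ τ ρ, K τ ρ → K' τ ρ)
    {c : Option (Fin m) → Fin n} : ∀ (τ : Tr m) (κ : Cfg n τ), Vd D K c τ κ → Vd D K' c τ κ := by
  intro τ
  induction τ with
  | leaf o => intro _ _; trivial
  | node l r ihl ihr =>
    intro κ hκ
    obtain ⟨⟨v1, v2⟩, ⟨ρ, hρ, k1, k2, h1, h2⟩, p1, p2⟩ := hκ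
    exact ⟨⟨ihl _ v1, ihr _ v2⟩, ⟨ρ, hρ, h _ _ k1, h _ _ k2, h1, h2⟩, PV_mono h p1, PV_mono h p2⟩

theorem VNear.far {w : Fin m → Fin n} {u : Option (Fin m) → V} {τ : Tr m}
    {x : Option (Fin m) → Fin n} {a : Lf n τ} (h : VNear D w u τ x a) : VFar D τ w a := by
  refine ⟨fun o => ?_, Vd_mono (fun _ _ h => h.2) τ a.2 h.2⟩
  obtain ⟨ρ, hρ, h1, -, h3⟩ := h.1 o
  exact ⟨ρ, hρ, h1, h3⟩

variable {w : Fin m → Fin n} {d : ℝ} (H : Hubs D w d)

open scoped Classical in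
/-- good near patterns -/
def GP (u : Option (Fin m) → V) (x : Option (Fin m) → Fin n) (τ : Tr m) : Prop :=
  NT H u x τ ∧ ∀ o, d * n ≤ #{t : Fin n | ((0 : Fin 3), t) ∈ H.Hub (u o) (x o)}

/-- the density of the lifts -/
noncomputable def etaC (d : ℝ) (m F : ℕ) : ℝ := d ^ (m + 1) * (d ^ 3 / 9) ^ F

theorem etaC_pos {d : ℝ} (hd : 0 < d) (m F : ℕ) : 0 < etaC d m F := by
  unfold etaC
  positivity

theorem hub_row (hd : 0 < d) (hn : 0 < n) {v : V} {y : Fin n} {i : Fin 3} {t : Fin n}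
    (h : (i, t) ∈ H.Hub v y) : ∃ ρ ∈ D.R, ρ (D.f i) = t ∧ ρ v = y ∧ ∀ k, ρ (D.bas k) = w k := by
  classical
  have h1 := H.walk v y i t i t h h
  have h2 : 0 < d * (n : ℝ) ^ 3 := by positivity
  have h3 := lt_of_lt_of_le h2 h1
  rw [Nat.cast_pos, Finset.card_pos] at h3
  obtain ⟨P, hP⟩ := h3
  rw [mem_filter] at hP
  obtain ⟨-, ⟨ρ, hρ, k, h4, -⟩, -⟩ := hP
  exact ⟨ρ, hρ, h4, k.1, k.2⟩

theorem card_Lf (τ : Tr m) : (Fintype.card (Lf n τ) : ℝ) = (n : ℝ) ^ (m + 1) * (9 * (n : ℝ) ^ 8) ^ τ.nodes := by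
  rw [Fintype.card_prod, card_Cfg, Fintype.card_fun, Fintype.card_option, Fintype.card_fin, Fintype.card_fin]
  push_cast
  rfl

open scoped Classical in
/-- the number of lifts over a good near pattern -/
theorem near_ge (hd : 0 < d) (hn : 0 < n) {u : Option (Fin m) → V} {x : Option (Fin m) → Fin n} {τ : Tr m}
    (h : GP H u x τ) : etaC d m τ.nodes * Fintype.card (Lf n τ) ≤ #{a : Lf n τ | VNear D w u τ x a} := by
  have h1 : (d * n) ^ (m + 1) ≤
      (#{c : Option (Fin m) → Fin n | ∀ o, ((0 : Fin 3), c o) ∈ H.Hub (u o) (x o)} : ℝ) := by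
    have h2 : (univ.filter fun c : Option (Fin m) → Fin n => ∀ o, ((0 : Fin 3), c o) ∈ H.Hub (u o) (x o)) =
        Fintype.piFinset fun o => univ.filter fun t => ((0 : Fin 3), t) ∈ H.Hub (u o) (x o) := by
      ext c
      simp [Fintype.mem_piFinset]
    rw [h2, Fintype.card_piFinset, Nat.cast_prod]
    have h3 : (d * n) ^ (m + 1) = ∏ _o : Option (Fin m), (d * n : ℝ) := by
      rw [Finset.prod_const, Finset.card_univ, Fintype.card_option, Fintype.card_fin]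
    rw [h3]
    exact Finset.prod_le_prod (fun _ _ => by positivity) fun o _ => h.2 o
  have h2 := card_prod_ge (univ.filter fun c : Option (Fin m) → Fin n =>
      ∀ o, ((0 : Fin 3), c o) ∈ H.Hub (u o) (x o))
    (fun c κ => Vd D (KN D w u x) c τ κ ∧ (τ.fi, out D c τ κ) ∈ H.Hub (rl u τ) (vl D u x τ)) h1
    (t := (d ^ 3 * (n : ℝ) ^ 8) ^ τ.nodes) (by positivity) (by
      intro c hc
      rw [mem_filter] at hc
      exact lifts_ge H hd.le hc.2 τ h.1)
  have h3 : etaC d m τ.nodes * Fintype.card (Lf n τ) = (d * n) ^ (m + 1) * (d ^ 3 * (n : ℝ) ^ 8) ^ τ.nodes := by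
    rw [card_Lf, etaC]
    simp only [mul_pow, div_pow]
    have h9 : ((9 : ℝ) ^ τ.nodes) ≠ 0 := by positivity
    field_simp
  rw [h3]
  refine h2.trans ?_
  rw [Nat.cast_le]
  refine Finset.card_le_card ?_
  intro a ha
  rw [mem_filter] at ha
  obtain ⟨-, hc, hv, -⟩ := ha
  rw [mem_filter] at hc
  refine mem_filter_of ⟨fun o => ?_, hv⟩
  obtain ⟨ρ, hρ, e1, e2, e3⟩ := hub_row H hd hn (hc.2 o)
  exact ⟨ρ, hρ, e1, e2, e3⟩

open scoped Classical in
/-- **the prism count**: few end letters -/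
theorem few_ends (hd : 0 < d) (hn : 0 < n) {u : Option (Fin m) → V} {τ : Tr m} (p : Fin n)
    (hτ : rl (uF D) τ = 0) {γ ε : ℝ} (hγ : 0 < γ) (hε : ε ≤ etaC d m τ.nodes / 2)
    (hpop : (#{a : Lf n τ | VFar D τ w a ∧ (#{σ : Fin m → Fin n | VFar D τ σ a} : ℝ) < γ * n ^ m} : ℝ) ≤
      ε * Fintype.card (Lf n τ)) :
    (#{q : Fin n | ∃ x : Option (Fin m) → Fin n, x none = p ∧ GP H u x τ ∧ vl D u x τ = q} : ℝ) ≤
      2 / (etaC d m τ.nodes * γ) := by
  set Q := univ.filter fun q : Fin n =>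
    ∃ x : Option (Fin m) → Fin n, x none = p ∧ GP H u x τ ∧ vl D u x τ = q with hQ
  have hx : ∀ q : Fin n, ∃ x : Option (Fin m) → Fin n, q ∈ Q → x none = p ∧ GP H u x τ ∧ vl D u x τ = q := by
    intro q
    by_cases h : q ∈ Q
    · rw [hQ, mem_filter] at h
      obtain ⟨x, hx⟩ := h.2
      exact ⟨x, fun _ => hx⟩
    · exact ⟨fun _ => p, fun h' => absurd h' h⟩
  choose X hX using hx
  have hη := etaC_pos hd m τ.nodes
  have hcard : (0 : ℝ) < Fintype.card (Lf n τ) := by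
    rw [card_Lf]
    positivity
  -- lower bound for one end letter
  have h1 : ∀ q ∈ Q, etaC d m τ.nodes / 2 * Fintype.card (Lf n τ) * (γ * n ^ m) ≤
      #{z : Lf n τ × (Fin m → Fin n) | VNear D w u τ (X q) z.1 ∧ VFar D τ z.2 z.1} := by
    intro q hq
    obtain ⟨-, hg, -⟩ := hX q hq
    have h2 := near_ge H hd hn hg
    set B := univ.filter fun a : Lf n τ => VFar D τ w a ∧
      (#{σ : Fin m → Fin n | VFar D τ σ a} : ℝ) < γ * n ^ m with hB
    set A := univ.filter fun a : Lf n τ => VNear D w u τ (X q) a with hA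
    have h3 : (#A : ℝ) ≤ #(A \ B) + #B := by
      rw [← Nat.cast_add, Nat.cast_le]
      exact Finset.card_le_card_sdiff_add_card
    have h4 : etaC d m τ.nodes / 2 * Fintype.card (Lf n τ) ≤ (#(A \ B) : ℝ) := by
      have h5 : ε * Fintype.card (Lf n τ) ≤ etaC d m τ.nodes / 2 * Fintype.card (Lf n τ) :=
        mul_le_mul_of_nonneg_right hε hcard.le
      linarith
    have h6 := card_prod_ge (A \ B) (fun a σ => VFar D τ σ a) h4 (t := γ * n ^ m) (by positivity) (by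
      intro a ha
      rw [mem_sdiff, hA, hB, mem_filter, mem_filter] at ha
      by_contra hcon
      push Not at hcon
      exact ha.2 ⟨mem_univ _, ha.1.2.far, hcon⟩)
    refine h6.trans ?_
    rw [Nat.cast_le]
    refine Finset.card_le_card ?_
    intro z hz
    rw [mem_filter, mem_sdiff, hA, mem_filter] at hz
    exact mem_filter_of ⟨hz.2.1.1.2, hz.2.2⟩
  have h2 := card_prod_ge Q (fun q (z : Lf n τ × (Fin m → Fin n)) => VNear D w u τ (X q) z.1 ∧ VFar D τ z.2 z.1)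
    le_rfl (by positivity) h1
  -- injection
  have h3 : #{ab : Fin n × (Lf n τ × (Fin m → Fin n)) |
      ab.1 ∈ Q ∧ VNear D w u τ (X ab.1) ab.2.1 ∧ VFar D τ ab.2.2 ab.2.1} ≤
      Fintype.card (Lf n τ × (Fin m → Fin n)) := by
    rw [← Finset.card_univ]
    refine Finset.card_le_card_of_injOn (fun z => ((shC D u (X z.1) z.2.1.1, shK D u (X z.1) τ z.2.1.2),
      fun i => shC D (uF D) (xF D z.2.2) z.2.1.1 (some i))) (fun _ _ => mem_univ _) ?_
    rintro ⟨q, ⟨c, κ⟩, σ⟩ h ⟨q', ⟨c', κ'⟩, σ'⟩ h' e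
    rw [Finset.mem_coe, mem_filter] at h h'
    obtain ⟨-, hq, hn1, hf1⟩ := h
    obtain ⟨-, hq', hn2, hf2⟩ := h'
    simp only [Prod.mk.injEq] at e hn1 hn2 hf1 hf2
    obtain ⟨⟨e1, e2⟩, e3⟩ := e
    obtain ⟨hp1, hg1, hv1⟩ := hX q hq
    obtain ⟨hp2, hg2, hv2⟩ := hX q' hq'
    have h4 := end_eq (hp1.trans hp2.symm) hτ hn1.1 hn2.1 hf1.1 hf2.1 hn1.2 hn2.2 hf1.2 hf2.2 e1 e2
      (congrFun e3)
    rw [hv1, hv2] at h4
    subst h4
    obtain rfl : c = c' := shC_inj hn1.1 hn2.1 e1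
    obtain rfl : κ = κ' := shK_inj τ κ κ' hn1.2 hn2.2 e2
    obtain rfl : σ = σ' := sig_inj hf1.1 hf2.1 (congrFun e3)
    rfl
  have h4 : (#Q : ℝ) * (etaC d m τ.nodes / 2 * Fintype.card (Lf n τ) * (γ * n ^ m)) ≤
      Fintype.card (Lf n τ) * (n : ℝ) ^ m := by
    refine h2.trans ?_
    have h5 : ((Fintype.card (Lf n τ × (Fin m → Fin n)) : ℕ) : ℝ) = Fintype.card (Lf n τ) * (n : ℝ) ^ m := by
      rw [Fintype.card_prod, Fintype.card_fun, Fintype.card_fin, Fintype.card_fin]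
      push_cast
      rfl
    rw [← h5]
    exact_mod_cast h3
  have hnm : (0 : ℝ) < (n : ℝ) ^ m := by positivity
  rw [le_div_iff₀ (by positivity)]
  have h6 : (#Q : ℝ) * (etaC d m τ.nodes * γ) * (Fintype.card (Lf n τ) * (n : ℝ) ^ m) ≤
      2 * (Fintype.card (Lf n τ) * (n : ℝ) ^ m) := by nlinarith [h4]
  exact le_of_mul_le_mul_right h6 (by positivity)

end Helper43.Prism
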