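import Pool.Agent.helper43.MF.Prism

set_option autoImplicit false
set_option linter.unusedSectionVars false

/-!
# MP_141f81: the prism count, part 8 (`NearS` from many far pairs)
-/

namespace Helper43.Prism

open Finset

variable {V : Type} [AddCommGroup V] [Module (ZMod 2) V] {n m : ℕ}
variable {D : Dat V n m} {w : Fin m → Fin n} {d : ℝ} (H : Hubs D w d)

/-- good far pairs over a near row -/
def FP (N : Finset V) (η : V → Fin n) (t : Fin n × Fin n) : Prop :=
  ∃ ρ ∈ D.R, (∀ k, ρ (D.bas k) = w k) ∧ (∀ v ∈ N, ρ v = η v) ∧ ρ (D.f 0) = t.1 ∧ ρ (D.f 1) = t.2 ∧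
    ∀ v ∈ N, ∀ i, (i, ρ (D.f i)) ∈ H.Hub v (η v)

open scoped Classical in
theorem nearS_of (hn : 0 < n) (hd : 0 < d) {N : Finset V} {S : Finset (V → Fin n)} (hN : (0 : V) ∉ N)
    (h : ∀ η ∈ S, d * (n : ℝ) ^ 2 ≤ #{t : Fin n × Fin n | FP H N η t}) : NearS H N S where
  zero := hN
  row := by
    intro η hη
    have h1 := h η hη
    have h2 : 0 < d * (n : ℝ) ^ 2 := by positivity
    have h3 := lt_of_lt_of_le h2 h1
    rw [Nat.cast_pos, Finset.card_pos] at h3
    obtain ⟨t, ht⟩ := h3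
    rw [mem_filter] at ht
    obtain ⟨-, ρ, hρ, -, h4, -⟩ := ht
    exact ⟨ρ, hρ, h4⟩
  line := by
    intro η hη u hu v hv huv huvN
    unfold NL
    refine (h η hη).trans ?_
    rw [Nat.cast_le]
    refine Finset.card_le_card ?_
    intro t ht
    rw [mem_filter] at ht
    obtain ⟨-, ρ, hρ, hw, hN', h0, h1, hH⟩ := ht
    refine mem_filter_of ⟨⟨ρ, hρ, hN' u hu, hN' v hv, hw, h0, h1⟩, ?_, ?_, ?_⟩
    · rw [← h0]; exact hH u hu 0
    · rw [← h1]; exact hH v hv 1
    · rw [Dat.ad_eq hρ h0 h1, ← D.hf, Dat.ad_eq hρ (hN' u hu) (hN' v hv), hN' _ huvN]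
      exact hH _ huvN 2
  spoke := by
    intro η hη v hv
    have h1 := h η hη
    have h2 : (#{t : Fin n × Fin n | FP H N η t} : ℝ) ≤
        (#{t : Fin n | ((0 : Fin 3), t) ∈ H.Hub v (η v)} : ℝ) * n := by
      have h3 : #{t : Fin n × Fin n | FP H N η t} ≤
          ((univ.filter fun t : Fin n => ((0 : Fin 3), t) ∈ H.Hub v (η v)) ×ˢ (univ : Finset (Fin n))).card := by
        refine Finset.card_le_card ?_
        intro t ht
        rw [mem_filter] at ht
        obtain ⟨-, ρ, hρ, hw, hN', h0, h1, hH⟩ := ht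
        rw [mem_product]
        refine ⟨mem_filter_of ?_, mem_univ _⟩
        rw [← h0]
        exact hH v hv 0
      rw [Finset.card_product, Finset.card_univ, Fintype.card_fin] at h3
      exact_mod_cast h3
    have h4 : (0 : ℝ) < n := by exact_mod_cast hn
    have h5 : d * n * n ≤ (#{t : Fin n | ((0 : Fin 3), t) ∈ H.Hub v (η v)} : ℝ) * n := by
      calc d * n * n = d * (n : ℝ) ^ 2 := by ring
        _ ≤ _ := h1.trans h2
    exact le_of_mul_le_mul_right h5 h4

end Helper43.Prism
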