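import Pool.Agent.helper43.MF.Glue
import Pool.Agent.helper43.MF.Near
import Pool.Agent.helper47.MF.Sec4

set_option autoImplicit false
set_option linter.unusedSectionVars false

/-!
# MP_141f81: Sections 4 and 5 assembled, for rows satisfying `RowSys`
-/

namespace Helper43.Prism

open Finset
open Pool.Agent.MF
open Pool.Agent.helper35.MF (Ball)
open Pool.Agent.helper47.MF (RowSys Rw nearP Lk FarP sec4)
open Pool.Agent.helper62.MF (walks lnk dC dC_pos)

/-- the popularity threshold -/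
noncomputable def gam (c d : ℝ) (m b : ℕ) (τ : Tr m) : ℝ :=
  c * etaC d m τ.nodes / (4 * ((trees m b).card + 1))

theorem gam_pos {c d : ℝ} (hc : 0 < c) (hd : 0 < d) (m b : ℕ) (τ : Tr m) : 0 < gam c d m b τ := by
  have := etaC_pos hd m τ.nodes
  unfold gam
  positivity

/-- extension of a near row by the zero symbol -/
def extN {N W : Type} [AddCommGroup N] [Fintype N] [DecidableEq N] [AddCommGroup W] [Fintype W]
    [DecidableEq W] {n : ℕ}
    (z : Fin n) (π : NN N W → Fin n) (v : N) : Fin n :=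
  if h : v = 0 then z else π ⟨(v, 0), mem_NN h⟩

theorem extN_inj {N W : Type} [AddCommGroup N] [Fintype N] [DecidableEq N] [AddCommGroup W] [Fintype W]
    [DecidableEq W] {n : ℕ} (z : Fin n) : Function.Injective (extN z : (NN N W → Fin n) → N → Fin n) := by
  intro π π' h
  funext ⟨p, hp⟩
  obtain ⟨h1, h2⟩ := of_mem_NN hp
  have h3 := congrFun h p.1
  unfold extN at h3
  rw [dif_neg h1, dif_neg h1] at h3
  have h4 : (⟨(p.1, 0), mem_NN h1⟩ : NN N W) = ⟨p, hp⟩ := Subtype.ext h2.symm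
  rw [h4] at h3
  exact h3

theorem exact_near {N W : Type} [AddCommGroup N] [Fintype N] [DecidableEq N] [AddCommGroup W] [Fintype W]
    [DecidableEq W] {M : Mat (N × W)} {n : ℕ} {R : Finset (N × W → Fin n)} (hE : Exact M R)
    {S : Finset (N → Fin n)} (hS : ∀ ρ ∈ S, ∃ σ ∈ R, ∀ v : N, ρ v = σ (v, 0)) : Exact M.near S := by
  intro A v hA ρ hρ ρ' hρ' h
  obtain ⟨σ, hσ, h1⟩ := hS ρ hρ
  obtain ⟨σ', hσ', h1'⟩ := hS ρ' hρ'
  rw [h1, h1']
  refine hE (A.image fun v => (v, 0)) (v, 0) ?_ σ hσ σ' hσ' ?_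
  · unfold Mat.InCl at hA ⊢
    have h2 : M.near.rk (insert v A) = M.rk ((insert v A).image fun v => ((v, 0) : N × W)) := rfl
    have h3 : M.near.rk A = M.rk (A.image fun v => ((v, 0) : N × W)) := rfl
    rw [h2, h3, Finset.image_insert] at hA
    exact hA
  · intro u hu
    obtain ⟨a, ha, rfl⟩ := mem_image.mp hu
    rw [← h1, ← h1']
    exact h a ha

section

variable {N : Type} [AddCommGroup N] [Fintype N] [DecidableEq N] {s m : ℕ}

open scoped Classical in
/-- Sections 4 and 5 for rows satisfying `RowSys`. -/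
theorem fin45 (M : Mat (N × (Fin s → ZMod 2))) [Module (ZMod 2) (N × (Fin s → ZMod 2))]
    (f : Fin 3 → N × (Fin s → ZMod 2)) (hf : f 2 = f 0 + f 1) (g : N × (Fin s → ZMod 2))
    (bas : Fin m → N × (Fin s → ZMod 2)) {b : ℕ} (hb : b + 1 ≤ m) {c : ℝ} (hc : 0 < c) :
    ∃ (d : ℝ) (C0 : ℕ), 0 < d ∧ ∀ n : ℕ, 0 < n → ∀ R : Finset (N × (Fin s → ZMod 2) → Fin n), Exact M R →
      RowSys R (NN N (Fin s → ZMod 2)) bas f g M.near.r →
      c * (n : ℝ) ^ (M.near.r + 3 + m) ≤ (R.card : ℝ) →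
      ∃ S : Finset (N → Fin n), (∀ ρ ∈ S, ∃ σ ∈ R, ∀ v : N, ρ v = σ (v, 0)) ∧ Exact M.near S ∧
        d * (n : ℝ) ^ M.near.r ≤ (S.card : ℝ) ∧ Cons (Pool.Agent.MF.Lines M.near ∅ Finset.univ S) b C0 := by
  set d0 : ℝ := dC (c / 2) (Fintype.card (NN N (Fin s → ZMod 2))) with hd0
  have hd0p : 0 < d0 := dC_pos (half_pos hc) _
  set d : ℝ := d0 / 2 with hd
  have hdp : 0 < d := half_pos hd0p
  refine ⟨d, ⌈CC (N × (Fin s → ZMod 2)) d m b (gam c d m b)⌉₊, hdp, ?_⟩
  intro n hn R hE hRS hcard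
  have hRne : R.Nonempty := by
    rw [← Finset.card_pos, ← Nat.cast_pos (α := ℝ)]
    refine lt_of_lt_of_le ?_ hcard
    positivity
  obtain ⟨ρ0, hρ0⟩ := hRne
  set D : Dat (N × (Fin s → ZMod 2)) n m := mkDat M R hE ρ0 hρ0 f hf g bas with hD
  obtain ⟨w, hpop, Hub, S, hwalk, hSub, hScard, hFar⟩ := sec4 hn hRS hc hcard
    (T := {τ // τ ∈ trees m b}) (α := fun τ => Lf n τ.1) (fun _ => univ)
    (fun τ a σ => VFar D τ.1 σ a) (fun τ => gam c d m b τ.1) (fun τ => gam_pos hc hdp m b τ.1)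
    (fun τ => (Fintype.card (Lf n τ.1) : ℝ)) (fun τ => by rw [Finset.card_univ])
  -- hubs
  let H : Hubs D w d :=
    { Hub := fun v y => if h : v ∈ NN N (Fin s → ZMod 2) then Hub ⟨v, h⟩ y else ∅
      walk := by
        intro v y i t j t' h1 h2
        by_cases hv : v ∈ NN N (Fin s → ZMod 2)
        · rw [dif_pos hv] at h1 h2
          have h3 := hwalk ⟨v, hv⟩ y _ h1 _ h2
          have h4 : d * (n : ℝ) ^ 3 ≤ d0 * (n : ℝ) ^ 3 := by
            refine mul_le_mul_of_nonneg_right ?_ (by positivity)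
            rw [hd]; linarith
          refine h4.trans (h3.trans ?_)
          rw [Nat.cast_le]
          refine Finset.card_le_card ?_
          intro P hP
          unfold walks at hP
          rw [mem_filter] at hP
          obtain ⟨-, ⟨ρ1, m1, a1, b1, c1⟩, ⟨ρ2, m2, a2, b2, c2⟩, ⟨ρ3, m3, a3, b3, c3⟩, ⟨ρ4, m4, a4, b4, c4⟩⟩ := hP
          have g1 := mem_filter.mp m1
          have g2 := mem_filter.mp m2
          have g3 := mem_filter.mp m3
          have g4 := mem_filter.mp m4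
          exact mem_filter_of ⟨⟨ρ1, g1.1, ⟨a1, g1.2⟩, b1, c1⟩, ⟨ρ2, g2.1, ⟨a2, g2.2⟩, b2, c2⟩,
            ⟨ρ3, g3.1, ⟨a3, g3.2⟩, b3, c3⟩, ⟨ρ4, g4.1, ⟨a4, g4.2⟩, b4, c4⟩⟩
        · rw [dif_neg hv] at h1
          exact absurd h1 (Finset.notMem_empty _) }
  set S1 : Finset (N → Fin n) := S.image (extN (ρ0 0)) with hS1
  have hrow : ∀ ρ ∈ S1, ∃ σ ∈ R, ∀ v : N, ρ v = σ (v, 0) := by
    intro ρ hρ
    obtain ⟨π, hπ, rfl⟩ := mem_image.mp hρ
    obtain ⟨σ, hσ, rfl⟩ := mem_image.mp (hSub hπ)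
    have hσR := (mem_filter.mp hσ).1
    refine ⟨σ, hσR, fun v => ?_⟩
    unfold extN
    by_cases hv : v = 0
    · rw [dif_pos hv, hv]
      exact exact_zero hE hρ0 hσR
    · rw [dif_neg hv]
      rfl
  have hnear : NearS H (NN N (Fin s → ZMod 2)) (SS S1) := by
    refine nearS_of H hn hdp ?_ ?_
    · intro h
      exact (of_mem_NN h).1 rfl
    · intro η hη
      obtain ⟨η1, hη1, rfl⟩ := mem_image.mp hη
      obtain ⟨π, hπ, rfl⟩ := mem_image.mp hη1
      refine (hFar π hπ).trans ?_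
      rw [Nat.cast_le]
      refine Finset.card_le_card ?_
      intro t ht
      obtain ⟨-, ρ, hρ, hπ', h0, h1, hH⟩ := mem_filter.mp ht
      have hρ' := mem_filter.mp hρ
      have hval : ∀ v (hv : v ∈ NN N (Fin s → ZMod 2)), ρ v = extN (ρ0 0) π v.1 := by
        intro v hv
        obtain ⟨h2, h3⟩ := of_mem_NN hv
        unfold extN
        rw [dif_neg h2, ← hπ']
        change ρ v = ρ (v.1, 0)
        rw [← h3]
      refine mem_filter_of ⟨ρ, hρ'.1, hρ'.2, hval, h0, h1, ?_⟩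
      intro v hv i
      change (i, ρ (f i)) ∈ (if h : v ∈ NN N (Fin s → ZMod 2) then Hub ⟨v, h⟩ (extN (ρ0 0) π v.1) else ∅)
      rw [dif_pos hv, ← hval v hv]
      exact hH ⟨v, hv⟩ i
  refine ⟨S1, hrow, exact_near hE hrow, ?_, ?_⟩
  · rw [hS1, Finset.card_image_of_injective _ (extN_inj _)]
    exact hScard
  · refine cons_of H hdp hn hnear hb (gam_pos hc hdp m b) ?_
    intro τ hτ
    have h1 := hpop ⟨τ, hτ⟩
    refine (le_trans (le_of_eq ?_) h1).trans ?_
    · congr
    · refine mul_le_mul_of_nonneg_right ?_ (Nat.cast_nonneg _)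
      have hη := etaC_pos hdp m τ.nodes
      have hT : (Fintype.card {τ // τ ∈ trees m b} : ℝ) = (trees m b).card := by
        rw [Fintype.card_coe]
      change 2 * (Fintype.card {τ // τ ∈ trees m b} : ℝ) / c * gam c d m b τ ≤ _
      rw [hT, gam]
      have hk : (0 : ℝ) ≤ (trees m b).card := Nat.cast_nonneg _
      have h2 : 2 * ((trees m b).card : ℝ) / c * (c * etaC d m τ.nodes / (4 * ((trees m b).card + 1))) =
          (((trees m b).card : ℝ) / ((trees m b).card + 1)) * (etaC d m τ.nodes / 2) := by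
        field_simp
        ring
      rw [h2]
      have h3 : ((trees m b).card : ℝ) / ((trees m b).card + 1) ≤ 1 := by
        rw [div_le_one (by positivity)]
        linarith
      calc _ ≤ 1 * (etaC d m τ.nodes / 2) := mul_le_mul_of_nonneg_right h3 (by positivity)
        _ = _ := one_mul _

end

end Helper43.Prism
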