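import Pool.Agent.helper43.MF.Prism
import Pool.Agent.MF.Frame2

set_option autoImplicit false
set_option linter.unusedSectionVars false

/-!
# MP_141f81: the prism count, part 7 (the frame: `Dat` from exact rows, `Cons` from `consistency`)
-/

namespace Helper43.Prism

open Finset
open Pool.Agent.MF
open Pool.Agent.helper35.MF (Ball)

section Dat

variable {V : Type} [AddCommGroup V] [Fintype V] [DecidableEq V] {n m : ℕ}

open scoped Classical in
/-- addition of symbols -/
noncomputable def adR (R : Finset (V → Fin n)) (z : Fin n) (u v : V) (a b : Fin n) : Fin n :=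
  if h : ∃ ρ ∈ R, ρ u = a ∧ ρ v = b then h.choose (u + v) else z

theorem inCl_add (M : Mat V) (u v : V) : M.InCl {u, v} (u + v) := by
  unfold Mat.InCl
  have h := M.rk_add u v
  rw [← h]
  congr 1
  ext x
  simp only [mem_insert, mem_singleton]
  tauto

theorem exact_add {M : Mat V} {R : Finset (V → Fin n)} (hE : Exact M R) {ρ σ : V → Fin n} (hρ : ρ ∈ R)
    (hσ : σ ∈ R) {u v : V} (h1 : ρ u = σ u) (h2 : ρ v = σ v) : ρ (u + v) = σ (u + v) := by
  refine hE {u, v} (u + v) (inCl_add M u v) ρ hρ σ hσ ?_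
  intro x hx
  rw [mem_insert, mem_singleton] at hx
  rcases hx with rfl | rfl
  · exact h1
  · exact h2

theorem exact_zero {M : Mat V} {R : Finset (V → Fin n)} (hE : Exact M R) {ρ σ : V → Fin n} (hρ : ρ ∈ R)
    (hσ : σ ∈ R) : ρ 0 = σ 0 := by
  refine hE ∅ 0 ?_ ρ hρ σ hσ (fun u hu => absurd hu (Finset.notMem_empty u))
  unfold Mat.InCl
  rw [M.rk_empty]
  exact M.rk_zero

/-- the data from exact rows -/
noncomputable def mkDat (M : Mat V) (R : Finset (V → Fin n)) (hE : Exact M R) (ρ0 : V → Fin n) (hρ0 : ρ0 ∈ R)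
    (f : Fin 3 → V) (hf : f 2 = f 0 + f 1) (g : V) (bas : Fin m → V) : Dat V n m where
  f := f
  g := g
  bas := bas
  R := R
  ad := adR R (ρ0 0)
  z0 := ρ0 0
  two := M.two
  hf := hf
  had := by
    intro ρ hρ u v
    have h : ∃ σ ∈ R, σ u = ρ u ∧ σ v = ρ v := ⟨ρ, hρ, rfl, rfl⟩
    unfold adR
    rw [dif_pos h]
    exact exact_add hE h.choose_spec.1 hρ h.choose_spec.2.1 h.choose_spec.2.2
  hz := fun ρ hρ => exact_zero hE hρ hρ0

end Dat

theorem sum_apply0 {X : Type} {ts : List (X →₀ ZMod 2)} {a : X} (h : ∀ t ∈ ts, t a = 0) :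
    ts.sum a = 0 := by
  induction ts with
  | nil => rfl
  | cons t ts ih =>
    rw [List.sum_cons, Finsupp.add_apply, h t (List.mem_cons_self), ih fun s hs => h s (List.mem_cons_of_mem _ hs),
      add_zero]

section Cons

variable {N W : Type} [AddCommGroup N] [Fintype N] [DecidableEq N] [AddCommGroup W] [Fintype W]
  [DecidableEq W] {n m : ℕ}

/-- near letters as letters -/
def emb0 (a : N × Fin n) : (N × W) × Fin n := ((a.1, 0), a.2)

theorem emb0_inj : Function.Injective (emb0 (W := W) : N × Fin n → (N × W) × Fin n) := by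
  rintro ⟨a, x⟩ ⟨b, y⟩ h
  simp only [emb0, Prod.mk.injEq, and_true] at h
  rw [h.1, h.2]

/-- near words as words -/
noncomputable def embG : G N n →+ G (N × W) n := Finsupp.mapDomain.addMonoidHom (emb0 (W := W))

theorem embG_lt (v : N) (x : Fin n) : embG (W := W) (lt v x) = sy (((v, 0), x) : (N × W) × Fin n) := by
  change Finsupp.mapDomain _ (Finsupp.single (v, x) (1 : ZMod 2)) = _
  rw [Finsupp.mapDomain_single]
  rfl

/-- the near roles -/
def NN (N W : Type) [AddCommGroup N] [Fintype N] [DecidableEq N] [AddCommGroup W] [DecidableEq W] :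
    Finset (N × W) := (univ.erase 0).image fun v => (v, 0)

theorem mem_NN {v : N} (hv : v ≠ 0) : ((v, 0) : N × W) ∈ NN N W :=
  mem_image_of_mem _ (mem_erase.mpr ⟨hv, mem_univ _⟩)

theorem of_mem_NN {p : N × W} (h : p ∈ NN N W) : p.1 ≠ 0 ∧ p = (p.1, 0) := by
  obtain ⟨v, hv, rfl⟩ := mem_image.mp h
  exact ⟨(mem_erase.mp hv).1, rfl⟩

/-- near rows as rows -/
def SS (S : Finset (N → Fin n)) : Finset (N × W → Fin n) := S.image fun η p => η p.1

variable [Module (ZMod 2) (N × W)]

variable {D : Dat (N × W) n m} {w : Fin m → Fin n} {d : ℝ} (H : Hubs D w d)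

theorem two_zero {M : Mat N} {u v : N} (h : M.Ind ∅ u v) : u ≠ 0 ∧ v ≠ 0 ∧ u ≠ v := by
  unfold Mat.Ind at h
  rw [M.rk_empty] at h
  have e1 : ∀ x : N, M.rk {x} ≤ 1 := by
    intro x
    have := M.rk_insert_le x ∅
    rw [M.rk_empty] at this
    simpa using this
  refine ⟨?_, ?_, ?_⟩
  · rintro rfl
    have h1 := M.rk_submod {0} {v}
    rw [M.rk_zero] at h1
    have h2 : ({0} : Finset N) ∪ {v} = insert 0 (insert v ∅) := by ext x; simp
    rw [h2, h] at h1
    have := e1 v
    omega
  · rintro rfl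
    have h1 := M.rk_submod {u} {0}
    rw [M.rk_zero] at h1
    have h2 : ({u} : Finset N) ∪ {0} = insert u (insert 0 ∅) := by ext x; simp
    rw [h2, h] at h1
    have := e1 u
    omega
  · rintro rfl
    have h2 : (insert u (insert u ∅) : Finset N) = {u} := by ext x; simp
    rw [h2] at h
    have := e1 u
    omega

theorem embG_lines {M : Mat N} {S : Finset (N → Fin n)} (hS : NearS H (NN N W) (SS S)) {t : G N n}
    (ht : t ∈ Pool.Agent.MF.Lines M ∅ univ S) : embG (W := W) t ∈ TL D.ad (LS (NN N W) (SS S)) := by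
  obtain ⟨η, hη, u, -, v, -, -, hI, rfl⟩ := ht
  obtain ⟨hu, hv, huv⟩ := two_zero hI
  have huv0 : u + v ≠ 0 := by
    intro h
    apply huv
    have h1 := congrArg (· + v) h
    simp only [add_assoc, M.two, add_zero, zero_add] at h1
    exact h1
  have hη' : (fun p : N × W => η p.1) ∈ SS (W := W) S := mem_image_of_mem _ hη
  have e1 := hS.ad_eq H hη' (mem_NN hu) (mem_NN hv) (by
    have : ((u, 0) : N × W) + (v, 0) = (u + v, 0) := by simp
    rw [this]
    exact mem_NN huv0)
  refine ⟨((u, 0), η u), ((v, 0), η v), ⟨_, hη', mem_NN hu, mem_NN hv, ?_, ?_, rfl, rfl⟩, ?_⟩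
  · intro h
    exact huv (Prod.ext_iff.mp h).1
  · have : ((u, 0) : N × W) + (v, 0) = (u + v, 0) := by simp
    simp only [this]
    exact mem_NN huv0
  · simp only at e1 ⊢
    rw [e1]
    unfold lin
    rw [map_add, map_add, embG_lt, embG_lt, embG_lt]
    have : ((u, 0) : N × W) + (v, 0) = (u + v, 0) := by simp
    rw [this]

theorem line_zero_role {M : Mat N} {S : Finset (N → Fin n)} {t : G N n} (ht : t ∈ Pool.Agent.MF.Lines M ∅ univ S)
    (y : Fin n) : t ((0 : N), y) = 0 := by
  obtain ⟨η, hη, u, -, v, -, -, hI, rfl⟩ := ht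
  obtain ⟨hu, hv, huv⟩ := two_zero hI
  have huv0 : u + v ≠ 0 := by
    intro h
    apply huv
    have h1 := congrArg (· + v) h
    simp only [add_assoc, M.two, add_zero, zero_add] at h1
    exact h1
  unfold lin lt
  rw [Finsupp.add_apply, Finsupp.add_apply, Finsupp.single_apply, Finsupp.single_apply, Finsupp.single_apply,
    if_neg (by intro h; exact hu (Prod.ext_iff.mp h).1), if_neg (by intro h; exact hv (Prod.ext_iff.mp h).1),
    if_neg (by intro h; exact huv0 (Prod.ext_iff.mp h).1)]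
  rfl

open scoped Classical in
/-- **consistency in the frame** -/
theorem cons_of {M : Mat N} {S : Finset (N → Fin n)} (hd : 0 < d) (hn : 0 < n)
    (hS : NearS H (NN N W) (SS S)) {b : ℕ} (hb : b + 1 ≤ m) {γ : Tr m → ℝ} (hγ : ∀ τ, 0 < γ τ)
    (hpop : ∀ τ ∈ trees m b,
      (#{a : Lf n τ | VFar D τ w a ∧ (#{σ : Fin m → Fin n | VFar D τ σ a} : ℝ) < γ τ * n ^ m} : ℝ) ≤
        etaC d m τ.nodes / 2 * Fintype.card (Lf n τ)) :
    Cons (Pool.Agent.MF.Lines M ∅ univ S) b ⌈CC (N × W) d m b γ⌉₊ := by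
  intro v x A hA
  have hC1 : (1 : ℝ) ≤ CC (N × W) d m b γ := by
    rw [CC]
    have : 0 ≤ ∑ τ ∈ trees m b, (Fintype.card (N × W) : ℝ) ^ (m + 1) * (2 / (etaC d m τ.nodes * γ τ)) := by
      refine Finset.sum_nonneg fun τ _ => ?_
      have h1 := etaC_pos hd m τ.nodes
      have h2 := hγ τ
      positivity
    linarith
  have hC2 : 1 ≤ ⌈CC (N × W) d m b γ⌉₊ := Nat.one_le_ceil_iff.mpr (by linarith)
  by_cases hv : v = 0
  · subst hv
    refine le_trans ?_ hC2
    have h1 : A ⊆ {x} := by
      intro y hy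
      rw [mem_singleton]
      obtain ⟨ts, -, hT, hs⟩ := hA y hy
      by_contra hne
      have h2 := sum_apply0 (a := ((0 : N), y)) fun t ht => line_zero_role (hT t ht) y
      rw [hs] at h2
      unfold lt at h2
      rw [Finsupp.add_apply, Finsupp.single_eq_same, Finsupp.single_apply,
        if_neg (by intro h; exact hne (Prod.ext_iff.mp h).2.symm), zero_add] at h2
      exact one_ne_zero h2
    calc A.card ≤ ({x} : Finset (Fin n)).card := Finset.card_le_card h1
      _ = 1 := Finset.card_singleton x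
  · have h0 : (((v, 0), x) : (N × W) × Fin n).1 ≠ 0 := by
      intro h
      exact hv (Prod.ext_iff.mp h).1
    have h1 := consistency H hd hn hS hb hγ hpop h0
    have h2 : A.card ≤ #{q : (N × W) × Fin n | ∃ ts : List (((N × W) × Fin n) →₀ ZMod 2), ts.length ≤ b ∧
      (∀ t ∈ ts, t ∈ TL D.ad (LS (NN N W) (SS S))) ∧ ts.sum = sy ((v, 0), x) + sy q} := by
      refine Finset.card_le_card_of_injOn (fun y => ((v, 0), y)) ?_ ?_
      · intro y hy
        obtain ⟨ts, hlen, hT, hs⟩ := hA y (Finset.mem_coe.mp hy)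
        rw [Finset.mem_coe]
        refine mem_filter_of ⟨ts.map (embG (W := W)), by rw [List.length_map]; exact hlen, ?_, ?_⟩
        · intro t ht
          obtain ⟨s, hs', rfl⟩ := List.mem_map.mp ht
          exact embG_lines H hS (hT s hs')
        · rw [← map_list_sum, hs, map_add, embG_lt, embG_lt]
      · intro y _ y' _ h
        exact (Prod.ext_iff.mp h).2
    have h3 : (A.card : ℝ) ≤ CC (N × W) d m b γ := le_trans (by exact_mod_cast h2) h1
    have h4 : (A.card : ℝ) ≤ (⌈CC (N × W) d m b γ⌉₊ : ℝ) := h3.trans (Nat.le_ceil _)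
    exact_mod_cast h4

end Cons

end Helper43.Prism
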