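import Pool.Agent.helper43.MF.Tree

set_option autoImplicit false

/-!
# MP_141f81: the prism count, part 2 (injectivity)
-/

namespace Helper43.Prism

variable {V : Type} [AddCommGroup V] {n m : ℕ} (D : Dat V n m)

/-- the row condition of the far sheet -/
def KF (σ : Fin m → Fin n) (_ : Tr m) (ρ : V → Fin n) : Prop := ∀ j, ρ (D.bas j) = σ j

/-- the row condition of the near sheet (base row `w`) -/
def KN (w : Fin m → Fin n) (u : Option (Fin m) → V) (x : Option (Fin m) → Fin n) (τ : Tr m)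
    (ρ : V → Fin n) : Prop := ρ (rl u τ) = vl D u x τ ∧ ∀ j, ρ (D.bas j) = w j

/-- far roles of the leaves -/
def uF : Option (Fin m) → V := fun o => o.elim 0 D.bas

/-- far symbols of the leaves -/
def xF (σ : Fin m → Fin n) : Option (Fin m) → Fin n := fun o => o.elim D.z0 σ

/-- centres in a common row with `σ` -/
def CF (σ : Fin m → Fin n) (c : Option (Fin m) → Fin n) : Prop :=
  ∀ o, ∃ ρ ∈ D.R, ρ (D.f 0) = c o ∧ ∀ j, ρ (D.bas j) = σ j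

/-- centres in a common row with the near letters and `w` -/
def CN (w : Fin m → Fin n) (u : Option (Fin m) → V) (x c : Option (Fin m) → Fin n) : Prop :=
  ∀ o, ∃ ρ ∈ D.R, ρ (D.f 0) = c o ∧ ρ (u o) = x o ∧ ∀ j, ρ (D.bas j) = w j

variable {D}

theorem KF_spec (σ : Fin m → Fin n) : ∀ τ, ∀ ρ ∈ D.R, KF D σ τ ρ → ρ (rl (uF D) τ) = vl D (uF D) (xF D σ) τ := by
  intro τ ρ hρ h
  induction τ with
  | leaf o =>
    cases o with
    | none => exact D.hz ρ hρ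
    | some i => exact h i
  | node l r ihl ihr =>
    change ρ (rl (uF D) l + rl (uF D) r) = D.ad (rl (uF D) l) (rl (uF D) r) _ _
    exact (Dat.ad_eq hρ (ihl h) (ihr h)).symm

theorem KN_spec (w : Fin m → Fin n) (u : Option (Fin m) → V) (x : Option (Fin m) → Fin n) :
    ∀ τ, ∀ ρ ∈ D.R, KN D w u x τ ρ → ρ (rl u τ) = vl D u x τ := fun _ _ _ h => h.1

/-- the addition is injective -/
theorem ad_inj {ρ ρ' : V → Fin n} (hρ : ρ ∈ D.R) (hρ' : ρ' ∈ D.R) {φ v : V} {a a' x : Fin n}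
    (h1 : ρ φ = a) (h2 : ρ v = x) (h1' : ρ' φ = a') (h2' : ρ' v = x)
    (h : D.ad φ v a x = D.ad φ v a' x) : a = a' := by
  rw [Dat.ad_eq hρ h1 h2, Dat.ad_eq hρ' h1' h2'] at h
  have e := D.fd hρ hρ' h (h2.trans h2'.symm)
  rw [add_assoc, D.two, add_zero] at e
  rw [← h1, ← h1', e]

/-- the addition is injective in the second symbol -/
theorem ad_inj' {ρ ρ' : V → Fin n} (hρ : ρ ∈ D.R) (hρ' : ρ' ∈ D.R) {φ v : V} {a x x' : Fin n}
    (h1 : ρ φ = a) (h2 : ρ v = x) (h1' : ρ' φ = a) (h2' : ρ' v = x')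
    (h : D.ad φ v a x = D.ad φ v a x') : x = x' := by
  rw [Dat.ad_eq hρ h1 h2, Dat.ad_eq hρ' h1' h2'] at h
  have e := D.fd hρ hρ' (h1.trans h1'.symm) h
  rw [← add_assoc, D.two, zero_add] at e
  rw [← h2, ← h2', e]

theorem out_rowF {σ : Fin m → Fin n} {c : Option (Fin m) → Fin n} (hc : CF D σ c) (τ : Tr m)
    (κ : Cfg n τ) (h : Vd D (KF D σ) c τ κ) :
    ∃ ρ ∈ D.R, ρ (D.f τ.fi) = out D c τ κ ∧ KF D σ τ ρ := by
  cases τ with
  | leaf o =>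
    obtain ⟨ρ, hρ, h1, h2⟩ := hc o
    exact ⟨ρ, hρ, h1, h2⟩
  | node l r =>
    obtain ⟨-, ⟨ρ, hρ, k1, k2, h1, h2⟩, -, -⟩ := h
    refine ⟨ρ, hρ, ?_, k1⟩
    change ρ (D.f 2) = D.ad (D.f 0) (D.f 1) κ.2.1.1 κ.2.1.2
    rw [Dat.ad_eq hρ h1 h2, D.hf]

theorem out_rowN {w : Fin m → Fin n} {u : Option (Fin m) → V} {x c : Option (Fin m) → Fin n}
    (hc : CN D w u x c) (τ : Tr m) (κ : Cfg n τ) (h : Vd D (KN D w u x) c τ κ) :
    ∃ ρ ∈ D.R, ρ (D.f τ.fi) = out D c τ κ ∧ KN D w u x τ ρ := by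
  cases τ with
  | leaf o =>
    obtain ⟨ρ, hρ, h1, h2, h3⟩ := hc o
    exact ⟨ρ, hρ, h1, h2, h3⟩
  | node l r =>
    obtain ⟨-, ⟨ρ, hρ, k1, k2, h1, h2⟩, -, -⟩ := h
    refine ⟨ρ, hρ, ?_, ?_, k1.2⟩
    · change ρ (D.f 2) = D.ad (D.f 0) (D.f 1) κ.2.1.1 κ.2.1.2
      rw [Dat.ad_eq hρ h1 h2, D.hf]
    · exact (Dat.ad_eq hρ k1.1 k2.1).symm

/-- two-sheet configurations with the same image have the same end letter -/
theorem end_eq {w σ σ' : Fin m → Fin n} {u : Option (Fin m) → V}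
    {x x' c c' : Option (Fin m) → Fin n} {τ : Tr m} {κ κ' : Cfg n τ}
    (hp : x none = x' none) (hτ : rl (uF D) τ = 0)
    (hc : CN D w u x c) (hc' : CN D w u x' c') (hF : CF D σ c) (hF' : CF D σ' c')
    (hN : Vd D (KN D w u x) c τ κ) (hN' : Vd D (KN D w u x') c' τ κ')
    (hV : Vd D (KF D σ) c τ κ) (hV' : Vd D (KF D σ') c' τ κ')
    (h1 : shC D u x c = shC D u x' c') (h2 : shK D u x τ κ = shK D u x' τ κ')
    (h3 : ∀ i, shC D (uF D) (xF D σ) c (some i) = shC D (uF D) (xF D σ') c' (some i)) :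
    vl D u x τ = vl D u x' τ := by
  have hcn : c none = c' none := by
    obtain ⟨ρ, hρ, a1, a2, -⟩ := hc none
    obtain ⟨ρ', hρ', b1, b2, -⟩ := hc' none
    have e := congrFun h1 none
    unfold shC at e
    rw [← hp] at e b2
    exact ad_inj hρ hρ' a1 a2 b1 b2 e
  have h4 : shC D (uF D) (xF D σ) c = shC D (uF D) (xF D σ') c' := by
    funext o
    cases o with
    | none =>
      change D.ad (D.f 0) 0 (c none) D.z0 = D.ad (D.f 0) 0 (c' none) D.z0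
      rw [hcn]
    | some i => exact h3 i
  have r1 := rec_spec (KN_spec w u x) (KF_spec σ) τ κ hN hV
  have r2 := rec_spec (KN_spec w u x') (KF_spec σ') τ κ' hN' hV'
  rw [h1, h2, h4, r2] at r1
  obtain ⟨ρ, hρ, a1, a2⟩ := out_rowF hF τ κ hV
  obtain ⟨ρ', hρ', b1, b2⟩ := out_rowF hF' τ κ' hV'
  have a3 := KF_spec σ τ ρ hρ a2
  have b3 := KF_spec σ' τ ρ' hρ' b2
  rw [Dat.ad_eq hρ a1 a3, Dat.ad_eq hρ' b1 b3, hτ, add_zero, a1, b1] at r1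
  have s1 := outB_spec (KN_spec w u x) τ κ hN
  have s2 := outB_spec (KN_spec w u x') τ κ' hN'
  rw [h1, h2, s2] at s1
  obtain ⟨ρ, hρ, a1, a2⟩ := out_rowN hc τ κ hN
  obtain ⟨ρ', hρ', b1, b2⟩ := out_rowN hc' τ κ' hN'
  rw [r1] at s1
  exact (ad_inj' hρ' hρ (b1.trans r1) b2.1 a1 a2.1 s1).symm

/-- the shift of centres is injective -/
theorem shC_inj {w : Fin m → Fin n} {u : Option (Fin m) → V} {x c c' : Option (Fin m) → Fin n}
    (hc : CN D w u x c) (hc' : CN D w u x c') (h : shC D u x c = shC D u x c') : c = c' := by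
  funext o
  obtain ⟨ρ, hρ, a1, a2, -⟩ := hc o
  obtain ⟨ρ', hρ', b1, b2, -⟩ := hc' o
  exact ad_inj hρ hρ' a1 a2 b1 b2 (congrFun h o)

theorem shP_inj {K : Tr m → (V → Fin n) → Prop} {τ : Tr m} {v : V} {x : Fin n}
    (hK : ∀ ρ ∈ D.R, K τ ρ → ρ v = x) {i j : Fin 3} {a a' b b' : Fin n} {P Q : Pth n}
    (hP : PV D K τ i a j a' P) (hQ : PV D K τ i b j b' Q) (h : shP D v x P = shP D v x Q) : P = Q := by
  obtain ⟨⟨ρ1, m1, k1, a1, b1⟩, ⟨ρ2, m2, k2, a2, b2⟩, -, ⟨ρ4, m4, k4, a4, b4⟩⟩ := hP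
  obtain ⟨⟨ρ1', m1', k1', a1', b1'⟩, ⟨ρ2', m2', k2', a2', b2'⟩, -, ⟨ρ4', m4', k4', a4', b4'⟩⟩ := hQ
  obtain ⟨P1, ⟨k, t⟩, P2⟩ := P
  obtain ⟨Q1, ⟨k', t'⟩, Q2⟩ := Q
  unfold shP at h
  simp only [Prod.mk.injEq] at h
  obtain ⟨e1, ⟨e2, e3⟩, e4⟩ := h
  subst e2
  simp only at a2 a2' b1 b1' b4 b4'
  have f1 := ad_inj m1 m1' b1 (hK _ m1 k1) b1' (hK _ m1' k1') e1
  have f2 := ad_inj m2 m2' a2 (hK _ m2 k2) a2' (hK _ m2' k2') e3
  have f3 := ad_inj m4 m4' b4 (hK _ m4 k4) b4' (hK _ m4' k4') e4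
  rw [f1, f2, f3]

/-- the shift of configurations is injective -/
theorem shK_inj {w : Fin m → Fin n} {u : Option (Fin m) → V} {x c : Option (Fin m) → Fin n} :
    ∀ (τ : Tr m) (κ κ' : Cfg n τ), Vd D (KN D w u x) c τ κ → Vd D (KN D w u x) c τ κ' →
      shK D u x τ κ = shK D u x τ κ' → κ = κ' := by
  intro τ
  induction τ with
  | leaf o => intro κ κ' _ _ _; rfl
  | node l r ihl ihr =>
    intro κ κ' h h' e
    obtain ⟨⟨v1, v2⟩, ⟨ρ, hρ, k1, k2, h1, h2⟩, p1, p2⟩ := h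
    obtain ⟨⟨v1', v2'⟩, ⟨ρ', hρ', k1', k2', h1', h2'⟩, p1', p2'⟩ := h'
    have e' : (((shK D u x l κ.1.1, shK D u x r κ.1.2),
      (D.ad (D.f 0) (rl u l) κ.2.1.1 (vl D u x l), D.ad (D.f 1) (rl u r) κ.2.1.2 (vl D u x r)),
      (shP D (rl u l) (vl D u x l) κ.2.2.1, shP D (rl u r) (vl D u x r) κ.2.2.2)) :
        (Cfg n l × Cfg n r) × (Fin n × Fin n) × (Pth n × Pth n)) =
      ((shK D u x l κ'.1.1, shK D u x r κ'.1.2),
      (D.ad (D.f 0) (rl u l) κ'.2.1.1 (vl D u x l), D.ad (D.f 1) (rl u r) κ'.2.1.2 (vl D u x r)),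
      (shP D (rl u l) (vl D u x l) κ'.2.2.1, shP D (rl u r) (vl D u x r) κ'.2.2.2)) := e
    simp only [Prod.mk.injEq] at e'
    obtain ⟨⟨e1, e2⟩, ⟨e3, e4⟩, e5, e6⟩ := e'
    have g1 := ihl _ _ v1 v1' e1
    have g2 := ihr _ _ v2 v2' e2
    have g3 := ad_inj hρ hρ' h1 k1.1 h1' k1'.1 e3
    have g4 := ad_inj hρ hρ' h2 k2.1 h2' k2'.1 e4
    have g5 := shP_inj (KN_spec w u x l) p1 p1' e5
    have g6 := shP_inj (KN_spec w u x r) p2 p2' e6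
    obtain ⟨⟨a1, a2⟩, ⟨a3, a4⟩, a5, a6⟩ := κ
    obtain ⟨⟨b1, b2⟩, ⟨b3, b4⟩, b5, b6⟩ := κ'
    simp only at g1 g2 g3 g4 g5 g6
    rw [g1, g2, g3, g4, g5, g6]

/-- the far row is determined by the shifted centres -/
theorem sig_inj {σ σ' : Fin m → Fin n} {c : Option (Fin m) → Fin n} (hF : CF D σ c) (hF' : CF D σ' c)
    (h3 : ∀ i, shC D (uF D) (xF D σ) c (some i) = shC D (uF D) (xF D σ') c (some i)) : σ = σ' := by
  funext i
  obtain ⟨ρ, hρ, a1, a2⟩ := hF (some i)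
  obtain ⟨ρ', hρ', b1, b2⟩ := hF' (some i)
  exact ad_inj' hρ hρ' a1 (a2 i) b1 (b2 i) (h3 i)

end Helper43.Prism
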