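import Pool.Agent.helper43.MF.Inj

set_option autoImplicit false

/-!
# MP_141f81: the prism count, part 3 (lower bound for the number of lifts)
-/

namespace Helper43.Prism

open Finset

theorem mem_filter_of {A : Type} [Fintype A] {p : A → Prop} [DecidablePred p] {a : A} (h : p a) :
    a ∈ univ.filter p := by
  rw [mem_filter]
  exact ⟨mem_univ _, h⟩

theorem card_prod_ge {A B : Type} [Fintype A] [Fintype B] (S : Finset A) (P : A → B → Prop)
    [∀ a, DecidablePred (P a)] [DecidablePred fun ab : A × B => ab.1 ∈ S ∧ P ab.1 ab.2] {s t : ℝ}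
    (hs : s ≤ #S) (ht0 : 0 ≤ t) (ht : ∀ a ∈ S, t ≤ #{b | P a b}) :
    s * t ≤ #{ab : A × B | ab.1 ∈ S ∧ P ab.1 ab.2} := by
  classical
  have h1 : (#{ab : A × B | ab.1 ∈ S ∧ P ab.1 ab.2} : ℝ) = ∑ a ∈ S, (#{b | P a b} : ℝ) := by
    rw [Finset.card_filter, Fintype.sum_prod_type, Nat.cast_sum, ← Finset.sum_filter_add_sum_filter_not univ
      (fun a => a ∈ S)]
    have h2 : ∑ a ∈ univ.filter (fun a => ¬ a ∈ S),
        ((∑ b : B, if (a, b).1 ∈ S ∧ P (a, b).1 (a, b).2 then 1 else 0 : ℕ) : ℝ) = 0 := by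
      refine Finset.sum_eq_zero fun a ha => ?_
      rw [Finset.mem_filter] at ha
      rw [Nat.cast_eq_zero]
      refine Finset.sum_eq_zero fun b _ => ?_
      rw [if_neg]
      exact fun h => ha.2 h.1
    rw [h2, add_zero]
    have h3 : univ.filter (fun a => a ∈ S) = S := by ext a; simp
    rw [h3]
    refine Finset.sum_congr rfl fun a ha => ?_
    rw [Finset.card_filter]
    congr 1
    refine Finset.sum_congr rfl fun b _ => ?_
    by_cases h : P a b
    · rw [if_pos ⟨ha, h⟩, if_pos h]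
    · rw [if_neg (fun h' => h h'.2), if_neg h]
  rw [h1]
  calc s * t ≤ #S * t := mul_le_mul_of_nonneg_right hs ht0
    _ = ∑ _a ∈ S, t := by rw [Finset.sum_const, nsmul_eq_mul]
    _ ≤ _ := Finset.sum_le_sum ht

variable {V : Type} [AddCommGroup V] {n m : ℕ} (D : Dat V n m)

open scoped Classical in
/-- hubs: `Hub v y` are the spokes at the letter `y` of role `v` -/
structure Hubs (w : Fin m → Fin n) (d : ℝ) where
  /-- the spokes -/
  Hub : V → Fin n → Finset (Fin 3 × Fin n)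
  walk : ∀ v y i t j t', (i, t) ∈ Hub v y → (j, t') ∈ Hub v y →
    d * (n : ℝ) ^ 3 ≤ #{P : Pth n | PV D (fun _ ρ => ρ v = y ∧ ∀ k, ρ (D.bas k) = w k) (.leaf none) i t j t' P}

variable {D} {w : Fin m → Fin n} {d : ℝ} (H : Hubs D w d)

/-- far lines over the near line `(v1, x1), (v2, x2)` -/
def FL (v1 : V) (x1 : Fin n) (v2 : V) (x2 : Fin n) (t : Fin n × Fin n) : Prop :=
  (∃ ρ ∈ D.R, ρ v1 = x1 ∧ ρ v2 = x2 ∧ (∀ k, ρ (D.bas k) = w k) ∧ ρ (D.f 0) = t.1 ∧ ρ (D.f 1) = t.2) ∧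
    ((0 : Fin 3), t.1) ∈ H.Hub v1 x1 ∧ ((1 : Fin 3), t.2) ∈ H.Hub v2 x2 ∧
      ((2 : Fin 3), D.ad (D.f 0) (D.f 1) t.1 t.2) ∈ H.Hub (v1 + v2) (D.ad v1 v2 x1 x2)

open scoped Classical in
/-- near lines with many far lines -/
def NL (v1 : V) (x1 : Fin n) (v2 : V) (x2 : Fin n) : Prop :=
  d * (n : ℝ) ^ 2 ≤ #{t : Fin n × Fin n | FL H v1 x1 v2 x2 t}

/-- near trees -/
def NT (u : Option (Fin m) → V) (x : Option (Fin m) → Fin n) : Tr m → Prop
  | .leaf _ => True
  | .node l r => (NT u x l ∧ NT u x r) ∧ NL H (rl u l) (vl D u x l) (rl u r) (vl D u x r)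

theorem card_Cfg : ∀ τ : Tr m, Fintype.card (Cfg n τ) = (9 * n ^ 8) ^ τ.nodes := by
  intro τ
  induction τ with
  | leaf o => rfl
  | node l r ihl ihr =>
    change Fintype.card ((Cfg n l × Cfg n r) × (Fin n × Fin n) × (Pth n × Pth n)) = _
    rw [Fintype.card_prod, Fintype.card_prod, ihl, ihr, Tr.nodes]
    simp only [Fintype.card_prod, Fintype.card_fin]
    ring

theorem PV_congr {K : Tr m → (V → Fin n) → Prop} {τ : Tr m} {i j : Fin 3} {a a' : Fin n} {P : Pth n} :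
    PV D K τ i a j a' P ↔ PV D (fun _ => K τ) (.leaf none) i a j a' P := Iff.rfl

open scoped Classical in
/-- the number of lifts over a near tree -/
theorem lifts_ge (hd : 0 ≤ d) {u : Option (Fin m) → V} {x c : Option (Fin m) → Fin n}
    (hc : ∀ o, ((0 : Fin 3), c o) ∈ H.Hub (u o) (x o)) : ∀ τ : Tr m, NT H u x τ →
      (d ^ 3 * (n : ℝ) ^ 8) ^ τ.nodes ≤
        #{κ : Cfg n τ | Vd D (KN D w u x) c τ κ ∧ (τ.fi, out D c τ κ) ∈ H.Hub (rl u τ) (vl D u x τ)} := by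
  intro τ
  induction τ with
  | leaf o =>
    intro _
    have h1 : (univ.filter fun κ : Cfg n (.leaf o) => Vd D (KN D w u x) c (.leaf o) κ ∧
        (Tr.fi (.leaf o), out D c (.leaf o) κ) ∈ H.Hub (rl u (.leaf o)) (vl D u x (.leaf o))) = univ := by
      ext κ
      simp only [mem_filter, mem_univ, true_and, iff_true]
      exact ⟨trivial, hc o⟩
    rw [h1]
    change (d ^ 3 * (n : ℝ) ^ 8) ^ 0 ≤ ((univ : Finset (Cfg n (.leaf o))).card : ℝ)
    rw [Finset.card_univ, card_Cfg]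
    simp [Tr.nodes]
  | node l r ihl ihr =>
    intro h
    obtain ⟨⟨hl, hr⟩, hL⟩ := h
    have il := ihl hl
    have ir := ihr hr
    have hn3 : (0 : ℝ) ≤ d * (n : ℝ) ^ 3 := by positivity
    have hn2 : (0 : ℝ) ≤ d * (n : ℝ) ^ 2 := by positivity
    have hn8 : (0 : ℝ) ≤ d ^ 3 * (n : ℝ) ^ 8 := by positivity
    set Sl := univ.filter (fun κ : Cfg n l => Vd D (KN D w u x) c l κ ∧
      (l.fi, out D c l κ) ∈ H.Hub (rl u l) (vl D u x l)) with hSl
    set Sr := univ.filter (fun κ : Cfg n r => Vd D (KN D w u x) c r κ ∧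
      (r.fi, out D c r κ) ∈ H.Hub (rl u r) (vl D u x r)) with hSr
    have h1 := card_prod_ge Sl (fun _ κ => κ ∈ Sr) (s := (d ^ 3 * (n : ℝ) ^ 8) ^ l.nodes)
      (t := (d ^ 3 * (n : ℝ) ^ 8) ^ r.nodes) il (by positivity) (fun a _ => by
        have : (univ.filter fun b => b ∈ Sr) = Sr := by ext; simp
        rw [this]; exact ir)
    set S1 := univ.filter (fun ab : Cfg n l × Cfg n r => ab.1 ∈ Sl ∧ ab.2 ∈ Sr) with hS1
    have h2 := card_prod_ge S1 (fun κ (b : (Fin n × Fin n) × (Pth n × Pth n)) =>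
        FL H (rl u l) (vl D u x l) (rl u r) (vl D u x r) b.1 ∧
          PV D (KN D w u x) l l.fi (out D c l κ.1) 0 b.1.1 b.2.1 ∧
          PV D (KN D w u x) r r.fi (out D c r κ.2) 1 b.1.2 b.2.2) (t := d * (n : ℝ) ^ 2 *
          (d * (n : ℝ) ^ 3 * (d * (n : ℝ) ^ 3))) h1 (by positivity) (by
      intro κ hκ
      rw [hS1, mem_filter] at hκ
      obtain ⟨-, hκl, hκr⟩ := hκ
      rw [hSl, mem_filter] at hκl
      rw [hSr, mem_filter] at hκr
      have h3 := card_prod_ge (univ.filter fun t : Fin n × Fin n =>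
          FL H (rl u l) (vl D u x l) (rl u r) (vl D u x r) t)
        (fun t (P : Pth n × Pth n) => PV D (KN D w u x) l l.fi (out D c l κ.1) 0 t.1 P.1 ∧
          PV D (KN D w u x) r r.fi (out D c r κ.2) 1 t.2 P.2) (t := d * (n : ℝ) ^ 3 * (d * (n : ℝ) ^ 3))
        hL (by positivity) (by
        intro t ht
        rw [mem_filter] at ht
        obtain ⟨-, -, ht1, ht2, -⟩ := ht
        have h4 := H.walk _ _ _ _ _ _ hκl.2.2 ht1
        have h5 := H.walk _ _ _ _ _ _ hκr.2.2 ht2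
        have h6 := card_prod_ge (univ.filter fun P : Pth n =>
            PV D (KN D w u x) l l.fi (out D c l κ.1) 0 t.1 P)
          (fun _ P => PV D (KN D w u x) r r.fi (out D c r κ.2) 1 t.2 P) h4 hn3 (fun _ _ => h5)
        refine h6.trans (le_of_eq ?_)
        congr 2
        ext P
        simp only [mem_filter, mem_univ, true_and])
      refine h3.trans (le_of_eq ?_)
      congr 2
      ext b
      simp only [mem_filter, mem_univ, true_and])
    have h7 : (d ^ 3 * (n : ℝ) ^ 8) ^ (Tr.node l r).nodes =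
        (d ^ 3 * (n : ℝ) ^ 8) ^ l.nodes * (d ^ 3 * (n : ℝ) ^ 8) ^ r.nodes *
          (d * (n : ℝ) ^ 2 * (d * (n : ℝ) ^ 3 * (d * (n : ℝ) ^ 3))) := by
      rw [Tr.nodes]
      ring
    rw [h7]
    refine h2.trans ?_
    rw [Nat.cast_le]
    refine Finset.card_le_card ?_
    intro κ hκ
    have hκ' := (mem_filter.mp hκ).2
    obtain ⟨hκ1, ⟨⟨ρ, hρ, a1, a2, a3, a4, a5⟩, -, -, hout⟩, hP1, hP2⟩ := hκ'
    rw [hS1, mem_filter] at hκ1
    obtain ⟨-, hκl, hκr⟩ := hκ1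
    rw [hSl, mem_filter] at hκl
    rw [hSr, mem_filter] at hκr
    exact mem_filter_of (A := Cfg n (.node l r))
      ⟨⟨⟨hκl.2.1, hκr.2.1⟩, ⟨ρ, hρ, ⟨a1, a3⟩, ⟨a2, a3⟩, a4, a5⟩, hP1, hP2⟩, hout⟩

end Helper43.Prism
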