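import Pool.Agent.helper43.MF.Area

set_option autoImplicit false
set_option linter.unusedSectionVars false

/-!
# MP_141f81: the prism count, part 6 (consistency at bounded area)
-/

namespace Helper43.Prism

open Finset

/-- all trees of depth at most `k` -/
def trees (m : ℕ) : ℕ → Finset (Tr m)
  | 0 => univ.image Tr.leaf
  | k + 1 => trees m k ∪ (trees m k ×ˢ trees m k).image fun p => Tr.node p.1 p.2

theorem mem_trees {m : ℕ} : ∀ (τ : Tr m) (k : ℕ), τ.nodes ≤ k → τ ∈ trees m k := by
  intro τ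
  induction τ with
  | leaf o =>
    intro k _
    induction k with
    | zero => exact mem_image_of_mem _ (mem_univ _)
    | succ k ih => exact mem_union_left _ (ih (Nat.zero_le _))
  | node l r ihl ihr =>
    intro k hk
    rw [Tr.nodes] at hk
    obtain ⟨k, rfl⟩ : ∃ j, k = j + 1 := ⟨k - 1, by omega⟩
    refine mem_union_right _ (mem_image.mpr ⟨(l, r), mem_product.mpr ⟨ihl k (by omega), ihr k (by omega)⟩, rfl⟩)

variable {V : Type} [AddCommGroup V] [Module (ZMod 2) V] {n m : ℕ}

/-- relabelling of the leaves -/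
def toTr (lab : V × Fin n → Option (Fin m)) : BT (V × Fin n) → Tr m
  | .leaf a => .leaf (lab a)
  | .node l r => .node (toTr lab l) (toTr lab r)

theorem toTr_nodes (lab : V × Fin n → Option (Fin m)) (t : BT (V × Fin n)) : (toTr lab t).nodes = t.nodes := by
  induction t with
  | leaf a => rfl
  | node l r ihl ihr => rw [toTr, Tr.nodes, BT.nodes, ihl, ihr]

variable {D : Dat V n m} {w : Fin m → Fin n} {d : ℝ} (H : Hubs D w d)

/-- two letters of a near row -/
def LS (N : Finset V) (S : Finset (V → Fin n)) (a c : V × Fin n) : Prop :=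
  ∃ η ∈ S, a.1 ∈ N ∧ c.1 ∈ N ∧ a.1 ≠ c.1 ∧ a.1 + c.1 ∈ N ∧ η a.1 = a.2 ∧ η c.1 = c.2

open scoped Classical in
/-- the near rows -/
structure NearS (N : Finset V) (S : Finset (V → Fin n)) : Prop where
  zero : (0 : V) ∉ N
  row : ∀ η ∈ S, ∃ ρ ∈ D.R, ∀ v ∈ N, ρ v = η v
  line : ∀ η ∈ S, ∀ u ∈ N, ∀ v ∈ N, u ≠ v → u + v ∈ N → NL H u (η u) v (η v)
  spoke : ∀ η ∈ S, ∀ v ∈ N, d * n ≤ #{t : Fin n | ((0 : Fin 3), t) ∈ H.Hub v (η v)}

variable {N : Finset V} {S : Finset (V → Fin n)}

theorem NearS.ad_eq (h : NearS H N S) {η : V → Fin n} (hη : η ∈ S) {u v : V} (hu : u ∈ N) (hv : v ∈ N)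
    (huv : u + v ∈ N) : D.ad u v (η u) (η v) = η (u + v) := by
  obtain ⟨ρ, hρ, h1⟩ := h.row η hη
  rw [← h1 u hu, ← h1 v hv, ← h1 _ huv]
  exact D.had ρ hρ u v

theorem NearS.lines (h : NearS H N S) : Lines D.ad (LS N S) := by
  constructor
  rintro ⟨u, x⟩ ⟨v, y⟩ ⟨η, hη, hu, hv, huv, huvN, hx, hy⟩
  simp only at hu hv huv huvN hx hy
  subst hx
  subst hy
  have e1 := h.ad_eq H hη hu hv huvN
  have e2 : v + (u + v) = u := by rw [add_comm u v, ← add_assoc, D.two, zero_add]
  have e3 : u + (u + v) = v := by rw [← add_assoc, D.two, zero_add]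
  have e4 := h.ad_eq H hη hv huvN (by rw [e2]; exact hu)
  have e5 := h.ad_eq H hη hu huvN (by rw [e3]; exact hv)
  refine ⟨(u + v, η (u + v)), by simp only [e1], ⟨⟨η, hη, hv, huvN, ?_, ?_, rfl, rfl⟩, ?_⟩,
    ⟨η, hη, hu, huvN, ?_, ?_, rfl, rfl⟩, ?_⟩
  · intro h'
    simp only at h'
    apply h.zero
    have h2 := congrArg (v + ·) h'
    simp only [D.two, e2] at h2
    rw [h2]
    exact hu
  · simp only [e2]; exact hu
  · simp only [e4, e2]
  · intro h'
    simp only at h'
    apply h.zero
    have h2 := congrArg (u + ·) h'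
    simp only [D.two, e3] at h2
    rw [h2]
    exact hv
  · simp only [e3]; exact hv
  · simp only [e5, e3]

/-- letters of near rows -/
def LT (N : Finset V) (S : Finset (V → Fin n)) (a : V × Fin n) : Prop := ∃ η ∈ S, a.1 ∈ N ∧ η a.1 = a.2

theorem leaves_LT : ∀ t : BT (V × Fin n), BV D.ad (LS N S) t → LT N S (lv D.ad t) → ∀ a ∈ t.leaves, LT N S a := by
  intro t
  induction t with
  | leaf a =>
    intro _ h b hb
    rw [BT.leaves, List.mem_singleton] at hb
    rw [hb]
    exact h
  | node l r ihl ihr =>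
    intro hv _ a ha
    obtain ⟨⟨hl, hr⟩, η, hη, h1, h2, -, -, h3, h4⟩ := hv
    rw [BT.leaves, List.mem_append] at ha
    rcases ha with ha | ha
    · exact ihl hl ⟨η, hη, h1, h3⟩ a ha
    · exact ihr hr ⟨η, hη, h2, h4⟩ a ha

theorem leaves_LT' {l r : BT (V × Fin n)} (hv : BV D.ad (LS N S) (.node l r)) :
    ∀ a ∈ (BT.node l r).leaves, LT N S a := by
  intro a ha
  obtain ⟨⟨hl, hr⟩, η, hη, h1, h2, -, -, h3, h4⟩ := hv
  rw [BT.leaves, List.mem_append] at ha
  rcases ha with ha | ha
  · exact leaves_LT l hl ⟨η, hη, h1, h3⟩ a ha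
  · exact leaves_LT r hr ⟨η, hη, h2, h4⟩ a ha

theorem toTr_vals {lab : V × Fin n → Option (Fin m)} {xs : Option (Fin m) → V × Fin n} :
    ∀ t : BT (V × Fin n), (∀ a ∈ t.leaves, xs (lab a) = a) →
      rl (fun o => (xs o).1) (toTr lab t) = (lv D.ad t).1 ∧
        vl D (fun o => (xs o).1) (fun o => (xs o).2) (toTr lab t) = (lv D.ad t).2 := by
  intro t
  induction t with
  | leaf a =>
    intro h
    have := h a (by simp [BT.leaves])
    simp only [toTr, rl, vl, this, lv, and_self]
  | node l r ihl ihr =>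
    intro h
    obtain ⟨l1, l2⟩ := ihl fun a ha => h a (by rw [BT.leaves]; exact List.mem_append_left _ ha)
    obtain ⟨r1, r2⟩ := ihr fun a ha => h a (by rw [BT.leaves]; exact List.mem_append_right _ ha)
    simp only [toTr, rl, vl, lv, l1, l2, r1, r2, and_self]

theorem toTr_NT (h : NearS H N S) {lab : V × Fin n → Option (Fin m)} {xs : Option (Fin m) → V × Fin n} :
    ∀ t : BT (V × Fin n), BV D.ad (LS N S) t → (∀ a ∈ t.leaves, xs (lab a) = a) →
      NT H (fun o => (xs o).1) (fun o => (xs o).2) (toTr lab t) := by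
  intro t
  induction t with
  | leaf a => intro _ _; trivial
  | node l r ihl ihr =>
    intro hv hx
    obtain ⟨⟨hl, hr⟩, η, hη, h1, h2, h3, h4, h5, h6⟩ := hv
    have hxl : ∀ a ∈ l.leaves, xs (lab a) = a := fun a ha => hx a (by rw [BT.leaves]; exact List.mem_append_left _ ha)
    have hxr : ∀ a ∈ r.leaves, xs (lab a) = a := fun a ha => hx a (by rw [BT.leaves]; exact List.mem_append_right _ ha)
    obtain ⟨l1, l2⟩ := toTr_vals (D := D) l hxl
    obtain ⟨r1, r2⟩ := toTr_vals (D := D) r hxr
    refine ⟨⟨ihl hl hxl, ihr hr hxr⟩, ?_⟩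
    rw [l1, l2, r1, r2, ← h5, ← h6]
    exact h.line η hη _ h1 _ h2 h3 h4

theorem toTr_far {lab : V × Fin n → Option (Fin m)} (t : BT (V × Fin n)) :
    rl (uF D) (toTr lab t) =
      Finsupp.linearCombination (ZMod 2) (fun a : V × Fin n => uF D (lab a)) (fs t) := by
  induction t with
  | leaf a => rw [fs, Finsupp.linearCombination_single, one_smul]; rfl
  | node l r ihl ihr => rw [fs, map_add, ← ihl, ← ihr]; rfl

open scoped Classical in
/-- end letters of one type -/
noncomputable def QQ (p : V × Fin n) (τ : Tr m) (u : Option (Fin m) → V) : Finset (V × Fin n) :=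
  (univ.filter fun q : Fin n => ∃ x : Option (Fin m) → Fin n, x none = p.2 ∧ GP H u x τ ∧ vl D u x τ = q).image
    fun y => (rl u τ, y)

open scoped Classical in
/-- every end letter at bounded area has a type -/
theorem mem_QQ (h : NearS H N S) {b : ℕ} (hb : b + 1 ≤ m) {p q : V × Fin n} (hp : p.1 ≠ 0)
    {ts : List ((V × Fin n) →₀ ZMod 2)} (hlen : ts.length ≤ b)
    (hT : ∀ t ∈ ts, t ∈ TL D.ad (LS N S)) (hs : ts.sum = sy p + sy q) :
    q = p ∨ ∃ τ ∈ trees m b, ∃ u : Option (Fin m) → V, rl (uF D) τ = 0 ∧ q ∈ QQ H p τ u := by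
  obtain ⟨t, hv, hq, hfs, hnod⟩ := tree_of_sum (h.lines H) hp hT hs
  cases t with
  | leaf a =>
    left
    rw [lv] at hq
    rw [fs, hq] at hfs
    by_contra hne
    have h1 := congrArg (fun g => g q) hfs
    simp only [Finsupp.single_eq_same] at h1
    rw [sy_ne hne] at h1
    exact one_ne_zero h1
  | node l r =>
    right
    set t : BT (V × Fin n) := .node l r with ht
    have hgood := leaves_LT' (D := D) hv
    have hpl : p ∈ t.leaves := by
      by_contra hcon
      have h1 : fs t p = 0 := by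
        rw [fs_eq]
        refine sum_apply_zero fun s hs => ?_
        rw [List.mem_map] at hs
        obtain ⟨a, ha, rfl⟩ := hs
        exact sy_ne (fun h' => hcon (by rw [h']; exact ha))
      rw [hfs, Finsupp.single_eq_same] at h1
      exact one_ne_zero h1
    set K : Finset (V × Fin n) := t.leaves.toFinset.erase p with hK
    have hKcard : K.card ≤ m := by
      calc K.card ≤ t.leaves.toFinset.card := Finset.card_erase_le
        _ ≤ t.leaves.length := List.toFinset_card_le _
        _ = t.nodes + 1 := BT.leaves_length t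
        _ ≤ m := by omega
    obtain ⟨emb⟩ : Nonempty (K ↪ Fin m) := by
      refine Function.Embedding.nonempty_of_card_le ?_
      rw [Fintype.card_coe, Fintype.card_fin]
      exact hKcard
    set lab : V × Fin n → Option (Fin m) := fun a => if h : a ∈ K then some (emb ⟨a, h⟩) else none with hlab
    set xs : Option (Fin m) → V × Fin n := fun o => o.elim p fun i =>
      if h : ∃ k : K, emb k = i then (h.choose : V × Fin n) else p with hxs
    have hx1 : ∀ a ∈ t.leaves, xs (lab a) = a := by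
      intro a ha
      by_cases hap : a ∈ K
      · have h1 : lab a = some (emb ⟨a, hap⟩) := by rw [hlab]; simp only [dif_pos hap]
        rw [h1]
        have h2 : ∃ k : K, emb k = emb ⟨a, hap⟩ := ⟨_, rfl⟩
        change (if h : ∃ k : K, emb k = emb ⟨a, hap⟩ then (h.choose : V × Fin n) else p) = a
        rw [dif_pos h2]
        have h3 := emb.injective h2.choose_spec
        rw [h3]
      · have h1 : lab a = none := by rw [hlab]; simp only [dif_neg hap]
        rw [h1]
        change p = a
        by_contra hne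
        exact hap (Finset.mem_erase.mpr ⟨fun h' => hne h'.symm, List.mem_toFinset.mpr ha⟩)
    have hx2 : ∀ o, LT N S (xs o) := by
      intro o
      cases o with
      | none => exact hgood p hpl
      | some i =>
        change LT N S (if h : ∃ k : K, emb k = i then (h.choose : V × Fin n) else p)
        by_cases h2 : ∃ k : K, emb k = i
        · rw [dif_pos h2]
          exact hgood _ (List.mem_toFinset.mp (Finset.mem_of_mem_erase h2.choose.2))
        · rw [dif_neg h2]
          exact hgood p hpl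
    obtain ⟨e1, e2⟩ := toTr_vals (D := D) t hx1
    refine ⟨toTr lab t, mem_trees _ _ (by rw [toTr_nodes]; omega), fun o => (xs o).1, ?_, ?_⟩
    · rw [toTr_far, hfs, Finsupp.linearCombination_single, one_smul]
      have hpK : p ∉ K := Finset.notMem_erase p _
      have h1 : lab p = none := by
        rw [hlab]
        simp only [dif_neg hpK]
      rw [h1]
      rfl
    · rw [QQ, mem_image]
      refine ⟨q.2, mem_filter_of ⟨fun o => (xs o).2, rfl, ⟨toTr_NT H h t hv hx1, fun o => ?_⟩, ?_⟩, ?_⟩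
      · obtain ⟨η, hη, h1, h2⟩ := hx2 o
        have h3 := h.spoke η hη _ h1
        rw [h2] at h3
        exact h3
      · rw [e2, hq]
      · rw [e1, hq]

/-- the bound -/
noncomputable def CC (V : Type) [Fintype V] (d : ℝ) (m b : ℕ) (γ : Tr m → ℝ) : ℝ :=
  1 + ∑ τ ∈ trees m b, (Fintype.card V : ℝ) ^ (m + 1) * (2 / (etaC d m τ.nodes * γ τ))

open scoped Classical in
/-- **Consistency at bounded area.** -/
theorem consistency [Fintype V] (hd : 0 < d) (hn : 0 < n) (h : NearS H N S) {b : ℕ} (hb : b + 1 ≤ m) {γ : Tr m → ℝ}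
    (hγ : ∀ τ, 0 < γ τ)
    (hpop : ∀ τ ∈ trees m b,
      (#{a : Lf n τ | VFar D τ w a ∧ (#{σ : Fin m → Fin n | VFar D τ σ a} : ℝ) < γ τ * n ^ m} : ℝ) ≤
        etaC d m τ.nodes / 2 * Fintype.card (Lf n τ))
    {p : V × Fin n} (hp : p.1 ≠ 0) :
    (#{q : V × Fin n | ∃ ts : List ((V × Fin n) →₀ ZMod 2), ts.length ≤ b ∧
      (∀ t ∈ ts, t ∈ TL D.ad (LS N S)) ∧ ts.sum = sy p + sy q} : ℝ) ≤ CC V d m b γ := by
  set A := univ.filter fun q : V × Fin n => ∃ ts : List ((V × Fin n) →₀ ZMod 2), ts.length ≤ b ∧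
      (∀ t ∈ ts, t ∈ TL D.ad (LS N S)) ∧ ts.sum = sy p + sy q with hA
  have h1 : A ⊆ {p} ∪ (trees m b).biUnion fun τ => univ.biUnion fun u : Option (Fin m) → V =>
      if rl (uF D) τ = 0 then QQ H p τ u else ∅ := by
    intro q hq
    rw [hA, mem_filter] at hq
    obtain ⟨-, ts, hlen, hT, hs⟩ := hq
    rcases mem_QQ H h hb hp hlen hT hs with h1 | ⟨τ, hτ, u, h2, h3⟩
    · rw [h1]
      exact mem_union_left _ (mem_singleton_self _)
    · refine mem_union_right _ (mem_biUnion.mpr ⟨τ, hτ, mem_biUnion.mpr ⟨u, mem_univ _, ?_⟩⟩)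
      rw [if_pos h2]
      exact h3
  have h2 : ∀ τ ∈ trees m b, ∀ u : Option (Fin m) → V,
      ((if rl (uF D) τ = 0 then QQ H p τ u else ∅).card : ℝ) ≤ 2 / (etaC d m τ.nodes * γ τ) := by
    intro τ hτ u
    have hη := etaC_pos hd m τ.nodes
    by_cases h3 : rl (uF D) τ = 0
    · rw [if_pos h3]
      refine le_trans ?_ (few_ends H hd hn (u := u) p.2 h3 (hγ τ) le_rfl (hpop τ hτ))
      rw [Nat.cast_le]
      exact Finset.card_image_le
    · have := hγ τ
      rw [if_neg h3, Finset.card_empty, Nat.cast_zero]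
      positivity
  calc (A.card : ℝ) ≤ (({p} ∪ (trees m b).biUnion fun τ => univ.biUnion fun u : Option (Fin m) → V =>
      if rl (uF D) τ = 0 then QQ H p τ u else ∅).card : ℝ) := by
        rw [Nat.cast_le]; exact Finset.card_le_card h1
    _ ≤ (1 + ∑ τ ∈ trees m b, ∑ u : Option (Fin m) → V,
        (if rl (uF D) τ = 0 then QQ H p τ u else ∅).card : ℕ) := by
        rw [Nat.cast_le]
        refine (Finset.card_union_le _ _).trans (add_le_add (by rw [Finset.card_singleton]) ?_)
        refine Finset.card_biUnion_le.trans (Finset.sum_le_sum fun τ _ => Finset.card_biUnion_le)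
    _ ≤ CC V d m b γ := by
        rw [CC]
        push_cast
        refine add_le_add le_rfl (Finset.sum_le_sum fun τ hτ => ?_)
        calc _ ≤ ∑ _u : Option (Fin m) → V, 2 / (etaC d m τ.nodes * γ τ) :=
              Finset.sum_le_sum fun u _ => h2 τ hτ u
          _ = _ := by
              rw [Finset.sum_const, Finset.card_univ, Fintype.card_fun, Fintype.card_option,
                Fintype.card_fin, nsmul_eq_mul]
              push_cast
              rfl

end Helper43.Prism
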