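import Mathlib

set_option autoImplicit false

/-!
# MP_141f81: the prism count, part 1 (trees, configurations, recovery)

Roles `V` (exponent two), rows `R : Finset (V → Fin n)` closed under the functional dependencies `u, v → u + v`.
A near pattern is a binary tree: leaves are letters (a label `none` for the fixed letter `p`, `some i` for the
free letters), a node is a near line.  A configuration over a tree consists of far symbols; it is shifted by the near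
letters (`B` sheet) and by a far row `σ` (`A` sheet).
-/

namespace Helper43.Prism

/-- binary trees with leaves labelled by `Option (Fin m)` -/
inductive Tr (m : ℕ) : Type
  | leaf : Option (Fin m) → Tr m
  | node : Tr m → Tr m → Tr m
  deriving DecidableEq

/-- number of nodes -/
def Tr.nodes {m : ℕ} : Tr m → ℕ
  | .leaf _ => 0
  | .node l r => l.nodes + r.nodes + 1

/-- colour of the output symbol of a tree -/
def Tr.fi {m : ℕ} : Tr m → Fin 3
  | .leaf _ => 0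
  | .node _ _ => 2

/-- the data: far roles, rows, addition of symbols -/
structure Dat (V : Type) [AddCommGroup V] (n m : ℕ) where
  /-- hub roles -/
  f : Fin 3 → V
  /-- rim role -/
  g : V
  /-- far basis -/
  bas : Fin m → V
  /-- rows -/
  R : Finset (V → Fin n)
  /-- addition of symbols -/
  ad : V → V → Fin n → Fin n → Fin n
  /-- the zero symbol -/
  z0 : Fin n
  two : ∀ v : V, v + v = 0
  hf : f 2 = f 0 + f 1
  had : ∀ ρ ∈ R, ∀ u v, ad u v (ρ u) (ρ v) = ρ (u + v)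
  hz : ∀ ρ ∈ R, ρ 0 = z0

variable {V : Type} [AddCommGroup V] {n m : ℕ} (D : Dat V n m)

/-- role of (the output letter of) a tree -/
def rl (u : Option (Fin m) → V) : Tr m → V
  | .leaf o => u o
  | .node l r => rl u l + rl u r

/-- value of (the output letter of) a tree -/
def vl (u : Option (Fin m) → V) (x : Option (Fin m) → Fin n) : Tr m → Fin n
  | .leaf o => x o
  | .node l r => D.ad (rl u l) (rl u r) (vl u x l) (vl u x r)

/-- a path: rim, (colour, hub), rim -/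
abbrev Pth (n : ℕ) : Type := Fin n × (Fin 3 × Fin n) × Fin n

/-- configurations over a tree -/
def Cfg (n : ℕ) : Tr m → Type
  | .leaf _ => Unit
  | .node l r => (Cfg n l × Cfg n r) × (Fin n × Fin n) × (Pth n × Pth n)

instance instFintypeCfg : (τ : Tr m) → Fintype (Cfg n τ)
  | .leaf _ => inferInstanceAs (Fintype Unit)
  | .node l r =>
    letI := instFintypeCfg l
    letI := instFintypeCfg r
    inferInstanceAs (Fintype ((Cfg n l × Cfg n r) × (Fin n × Fin n) × (Pth n × Pth n)))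

/-- output symbol -/
def out (c : Option (Fin m) → Fin n) : (τ : Tr m) → Cfg n τ → Fin n
  | .leaf o, _ => c o
  | .node _ _, κ => D.ad (D.f 0) (D.f 1) κ.2.1.1 κ.2.1.2

/-- an edge of the link of the wire `τ` -/
def Ed (K : Tr m → (V → Fin n) → Prop) (τ : Tr m) (i : Fin 3) (a e : Fin n) : Prop :=
  ∃ ρ ∈ D.R, K τ ρ ∧ ρ (D.f i) = a ∧ ρ D.g = e

/-- a path in the link of the wire `τ` from `(i, a)` to `(j, a')` -/
def PV (K : Tr m → (V → Fin n) → Prop) (τ : Tr m) (i : Fin 3) (a : Fin n) (j : Fin 3) (a' : Fin n)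
    (P : Pth n) : Prop :=
  Ed D K τ i a P.1 ∧ Ed D K τ P.2.1.1 P.2.1.2 P.1 ∧ Ed D K τ P.2.1.1 P.2.1.2 P.2.2 ∧
    Ed D K τ j a' P.2.2

/-- valid configurations -/
def Vd (K : Tr m → (V → Fin n) → Prop) (c : Option (Fin m) → Fin n) : (τ : Tr m) → Cfg n τ → Prop
  | .leaf _, _ => True
  | .node l r, κ => (Vd K c l κ.1.1 ∧ Vd K c r κ.1.2) ∧
      (∃ ρ ∈ D.R, K l ρ ∧ K r ρ ∧ ρ (D.f 0) = κ.2.1.1 ∧ ρ (D.f 1) = κ.2.1.2) ∧
      PV D K l l.fi (out D c l κ.1.1) 0 κ.2.1.1 κ.2.2.1 ∧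
      PV D K r r.fi (out D c r κ.1.2) 1 κ.2.1.2 κ.2.2.2

/-- shift of a centre family -/
def shC (u : Option (Fin m) → V) (x c : Option (Fin m) → Fin n) : Option (Fin m) → Fin n :=
  fun o => D.ad (D.f 0) (u o) (c o) (x o)

/-- shift of a path at a wire of role `v` and symbol `y` -/
def shP (v : V) (y : Fin n) (P : Pth n) : Pth n :=
  (D.ad D.g v P.1 y, (P.2.1.1, D.ad (D.f P.2.1.1) v P.2.1.2 y), D.ad D.g v P.2.2 y)

/-- shift of a configuration -/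
def shK (u : Option (Fin m) → V) (x : Option (Fin m) → Fin n) : (τ : Tr m) → Cfg n τ → Cfg n τ
  | .leaf _, _ => ()
  | .node l r, κ => ((shK u x l κ.1.1, shK u x r κ.1.2),
      (D.ad (D.f 0) (rl u l) κ.2.1.1 (vl D u x l), D.ad (D.f 1) (rl u r) κ.2.1.2 (vl D u x r)),
      (shP D (rl u l) (vl D u x l) κ.2.2.1, shP D (rl u r) (vl D u x r) κ.2.2.2))

/-- output symbol of a shifted configuration -/
def outB (u : Option (Fin m) → V) (c : Option (Fin m) → Fin n) : (τ : Tr m) → Cfg n τ → Fin n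
  | .leaf o, _ => c o
  | .node l r, κ => D.ad (D.f 0 + rl u l) (D.f 1 + rl u r) κ.2.1.1 κ.2.1.2

/-- transport along an edge from the sheet of role `v` to the sheet of role `v'` -/
def tr (v v' : V) (φ ψ : V) (a' bφ bψ : Fin n) : Fin n :=
  D.ad (φ + v') (φ + ψ) a' (D.ad (φ + v) (ψ + v) bφ bψ)

/-- transport along a path -/
def trP (v v' : V) (i j : Fin 3) (s b0 : Fin n) (P : Pth n) (b1 : Fin n) : Fin n :=
  tr D v v' D.g (D.f j)
    (tr D v v' (D.f P.2.1.1) D.g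
      (tr D v v' D.g (D.f P.2.1.1)
        (tr D v v' (D.f i) D.g s b0 P.1) P.1 P.2.1.2) P.2.1.2 P.2.2) P.2.2 b1

/-- recovery of the second sheet from the first one and the centres -/
def rec (u u' : Option (Fin m) → V) (cB a' : Option (Fin m) → Fin n) : (τ : Tr m) → Cfg n τ → Fin n
  | .leaf o, _ => a' o
  | .node l r, κ => D.ad (D.f 0 + rl u' l) (D.f 1 + rl u' r)
      (trP D (rl u l) (rl u' l) l.fi 0 (rec u u' cB a' l κ.1.1) (outB D u cB l κ.1.1) κ.2.2.1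
        κ.2.1.1)
      (trP D (rl u r) (rl u' r) r.fi 1 (rec u u' cB a' r κ.1.2) (outB D u cB r κ.1.2) κ.2.2.2
        κ.2.1.2)

variable {D}

theorem Dat.ad_eq {ρ : V → Fin n} (hρ : ρ ∈ D.R) {u v : V} {a b : Fin n} (ha : ρ u = a) (hb : ρ v = b) :
    D.ad u v a b = ρ (u + v) := by
  rw [← ha, ← hb]
  exact D.had ρ hρ u v

/-- two rows agreeing at `u`, `v` agree at `u + v` -/
theorem Dat.fd {ρ ρ' : V → Fin n} (hρ : ρ ∈ D.R) (hρ' : ρ' ∈ D.R) {u v : V} (h1 : ρ u = ρ' u)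
    (h2 : ρ v = ρ' v) : ρ (u + v) = ρ' (u + v) := by
  rw [← D.had ρ hρ, ← D.had ρ' hρ', h1, h2]

theorem tr_spec {v v' φ ψ : V} {ρ ρ' : V → Fin n} (hρ : ρ ∈ D.R) (hρ' : ρ' ∈ D.R) {a e x x' : Fin n}
    (h1 : ρ φ = a) (h2 : ρ ψ = e) (h3 : ρ v = x) (h1' : ρ' φ = a) (h2' : ρ' ψ = e)
    (h3' : ρ' v' = x') :
    tr D v v' φ ψ (D.ad φ v' a x') (D.ad φ v a x) (D.ad ψ v e x) = D.ad ψ v' e x' := by
  have e1 : φ + v + (ψ + v) = φ + ψ := by
    rw [add_add_add_comm, D.two, add_zero]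
  have e2 : φ + v' + (φ + ψ) = ψ + v' := by
    rw [add_comm φ v', add_assoc, ← add_assoc φ φ, D.two, zero_add, add_comm]
  have h4 : ρ (φ + ψ) = ρ' (φ + ψ) := D.fd hρ hρ' (h1.trans h1'.symm) (h2.trans h2'.symm)
  unfold tr
  rw [Dat.ad_eq hρ h1 h3, Dat.ad_eq hρ h2 h3, Dat.ad_eq hρ' h1' h3', Dat.ad_eq hρ' h2' h3', D.had ρ hρ, e1,
    h4, D.had ρ' hρ', e2]

theorem trP_spec {K K' : Tr m → (V → Fin n) → Prop} {τ : Tr m} {v v' : V} {x x' : Fin n}
    (hK : ∀ ρ ∈ D.R, K τ ρ → ρ v = x) (hK' : ∀ ρ ∈ D.R, K' τ ρ → ρ v' = x')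
    {i j : Fin 3} {a a' : Fin n} {P : Pth n} (h : PV D K τ i a j a' P) (h' : PV D K' τ i a j a' P) :
    trP D v v' i j (D.ad (D.f i) v' a x') (D.ad (D.f i) v a x) (shP D v x P) (D.ad (D.f j) v a' x) =
      D.ad (D.f j) v' a' x' := by
  obtain ⟨⟨ρ1, m1, k1, a1, b1⟩, ⟨ρ2, m2, k2, a2, b2⟩, ⟨ρ3, m3, k3, a3, b3⟩, ⟨ρ4, m4, k4, a4, b4⟩⟩ := h
  obtain ⟨⟨ρ1', m1', k1', a1', b1'⟩, ⟨ρ2', m2', k2', a2', b2'⟩, ⟨ρ3', m3', k3', a3', b3'⟩,
    ⟨ρ4', m4', k4', a4', b4'⟩⟩ := h'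
  unfold trP shP
  simp only
  rw [tr_spec m1 m1' a1 b1 (hK _ m1 k1) a1' b1' (hK' _ m1' k1'),
    tr_spec m2 m2' b2 a2 (hK _ m2 k2) b2' a2' (hK' _ m2' k2'),
    tr_spec m3 m3' a3 b3 (hK _ m3 k3) a3' b3' (hK' _ m3' k3'),
    tr_spec m4 m4' b4 a4 (hK _ m4 k4) b4' a4' (hK' _ m4' k4')]

/-- the output symbol of a shifted configuration -/
theorem outB_spec {K : Tr m → (V → Fin n) → Prop} {u : Option (Fin m) → V} {x : Option (Fin m) → Fin n}
    (hK : ∀ τ, ∀ ρ ∈ D.R, K τ ρ → ρ (rl u τ) = vl D u x τ) {c : Option (Fin m) → Fin n} :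
    ∀ (τ : Tr m) (κ : Cfg n τ), Vd D K c τ κ →
      outB D u (shC D u x c) τ (shK D u x τ κ) = D.ad (D.f τ.fi) (rl u τ) (out D c τ κ) (vl D u x τ) := by
  intro τ κ h
  cases τ with
  | leaf o => rfl
  | node l r =>
    obtain ⟨-, ⟨ρ, hρ, k1, k2, h1, h2⟩, -, -⟩ := h
    have e1 := hK l ρ hρ k1
    have e2 := hK r ρ hρ k2
    change D.ad (D.f 0 + rl u l) (D.f 1 + rl u r) (D.ad (D.f 0) (rl u l) κ.2.1.1 (vl D u x l))
      (D.ad (D.f 1) (rl u r) κ.2.1.2 (vl D u x r)) = D.ad (D.f 2) (rl u l + rl u r)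
        (D.ad (D.f 0) (D.f 1) κ.2.1.1 κ.2.1.2) (D.ad (rl u l) (rl u r) (vl D u x l) (vl D u x r))
    rw [Dat.ad_eq hρ h1 e1, Dat.ad_eq hρ h2 e2, Dat.ad_eq hρ h1 h2, Dat.ad_eq hρ e1 e2, ← D.hf, D.had ρ hρ,
      D.had ρ hρ, D.hf, add_add_add_comm]

/-- recovery -/
theorem rec_spec {K K' : Tr m → (V → Fin n) → Prop} {u u' : Option (Fin m) → V}
    {x x' : Option (Fin m) → Fin n}
    (hK : ∀ τ, ∀ ρ ∈ D.R, K τ ρ → ρ (rl u τ) = vl D u x τ)
    (hK' : ∀ τ, ∀ ρ ∈ D.R, K' τ ρ → ρ (rl u' τ) = vl D u' x' τ) {c : Option (Fin m) → Fin n} :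
    ∀ (τ : Tr m) (κ : Cfg n τ), Vd D K c τ κ → Vd D K' c τ κ →
      rec D u u' (shC D u x c) (shC D u' x' c) τ (shK D u x τ κ) =
        D.ad (D.f τ.fi) (rl u' τ) (out D c τ κ) (vl D u' x' τ) := by
  intro τ
  induction τ with
  | leaf o => intro κ _ _; rfl
  | node l r ihl ihr =>
    intro κ h h'
    obtain ⟨⟨v1, v2⟩, ⟨ρ, hρ, k1, k2, h1, h2⟩, p1, p2⟩ := h
    obtain ⟨⟨v1', v2'⟩, ⟨ρ', hρ', k1', k2', h1', h2'⟩, p1', p2'⟩ := h'
    have e1 := hK' l ρ' hρ' k1'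
    have e2 := hK' r ρ' hρ' k2'
    have il := ihl κ.1.1 v1 v1'
    have ir := ihr κ.1.2 v2 v2'
    have ol := outB_spec hK l κ.1.1 v1
    have orr := outB_spec hK r κ.1.2 v2
    have t1 := trP_spec (hK l) (hK' l) p1 p1'
    have t2 := trP_spec (hK r) (hK' r) p2 p2'
    change D.ad (D.f 0 + rl u' l) (D.f 1 + rl u' r)
      (trP D (rl u l) (rl u' l) l.fi 0 (rec D u u' (shC D u x c) (shC D u' x' c) l (shK D u x l κ.1.1))
        (outB D u (shC D u x c) l (shK D u x l κ.1.1)) (shP D (rl u l) (vl D u x l) κ.2.2.1)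
        (D.ad (D.f 0) (rl u l) κ.2.1.1 (vl D u x l)))
      (trP D (rl u r) (rl u' r) r.fi 1 (rec D u u' (shC D u x c) (shC D u' x' c) r (shK D u x r κ.1.2))
        (outB D u (shC D u x c) r (shK D u x r κ.1.2)) (shP D (rl u r) (vl D u x r) κ.2.2.2)
        (D.ad (D.f 1) (rl u r) κ.2.1.2 (vl D u x r))) =
      D.ad (D.f 2) (rl u' l + rl u' r) (D.ad (D.f 0) (D.f 1) κ.2.1.1 κ.2.1.2)
        (D.ad (rl u' l) (rl u' r) (vl D u' x' l) (vl D u' x' r))
    rw [il, ir, ol, orr, t1, t2, Dat.ad_eq hρ' h1' e1, Dat.ad_eq hρ' h2' e2, Dat.ad_eq hρ' h1' h2',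
      Dat.ad_eq hρ' e1 e2, ← D.hf, D.had ρ' hρ', D.had ρ' hρ', D.hf, add_add_add_comm]

end Helper43.Prism
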